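import Pool.Agent.Q51.SZ.Def

/-!
# Project SZ (helper51): statements of the jobs

Notation of the docstrings: `A` an algebraic closure of `ℚ` (in Part B also of a number field), `G = Gal(A/ℚ)`,
`V` a valuation ring of `A` above the prime `l ∤ B` (`At A B l V`); `DcG V`, `InG V` its decomposition and inertia
groups (`Dec`, `Ine`: `Pool/Agent/Y157/PS/Stm.lean`; their calculus: `Y157/PS/Loc.lean`, section `groups`); the calculus
of `IsU V`, `V.nonunits`: `Y157/PS/Tools.lean` (`IsU.mul, IsU.inv, IsU.div, isU_of_pow, non_add, non_mul, nonunits_iff,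
isU_of_not_nonunit, IsU.not_nonunit, root_eq` ..).  `val z = e` means `IsU V (z / l ^ e)`.  `Rt f A` is the (finite) type
of the zeros of `f` in `A`.  `Wf D r i`, `Cf D r i j = Wf D r i / Wf D r j`: see `Def.lean`.  All statements of the library
`Y157.PS` are proved: see `Y157/PS/All.lean` and `Num.lean` (`a_loc, a_exf, a_g2, a_g3, a_ine, a_wgt, a_conj, a_extv, a_rts` ..).
-/

set_option autoImplicit false

namespace Pool.Agent.Q51.SZ

open Polynomial NumberField IsDedekindDomain Finset FF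
open Pool.Agent.Y157.PS (Dec Ine IsU geomPro)
open Pool.Agent.Q51.EL (Abv Setup)
open Pool.Agent.Q51.SE (Parq)
open Pool.Agent.Q51.ZC (VecP Rel dg)

/-! ## Part A: arithmetic -/

/-- JOB GD. Almost all primes are good.
Proof.  `f` and `f'` are coprime over `ℚ`: `P f + Q f' = N`, `P, Q ∈ ℤ[X]`, `0 ≠ N ∈ ℤ`.  `B = |B0 lc N q|`.  Let `l ∤ B`, `l ∈ V.nonunits`:
an integer `c` prime to `l` is a unit of `V` (`u c + v l = 1`; all integers lie in `V`).  A zero `e` of `f` is integral over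
`V` (`lc` is a unit), so `e ∈ V`; `Q(e) f'(e) = N` is a unit and `f'(e) = lc ∏_{e' ≠ e} (e - e')`, all factors in `V`, so they
are units.  `crd`: `f` is separable and splits. -/
def S_GD : Prop := ∀ (f : ℤ[X]), Irreducible (f.map (Int.castRingHom ℚ)) → ∀ q B0 : ℕ, q ≠ 0 →
  B0 ≠ 0 → ∃ B : ℕ, B0 ∣ B ∧ q ∣ B ∧ ∀ (A : Type) [Field A] [IsAlgClosed A] [CharZero A],
    Gd A f q B

/-- JOB INV. The inertia group.
Proof.  (1) `σ i` is a zero of `f` and `σ i - i ∈ V.nonunits` (`i ∈ V`), so `σ i = i` (`Gd.dist`); `Ine.fix_root` (`Y157/PS/Loc2.lean`;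
`(q : A)` is a unit of `V` since `q` is prime to `l`).  (2) `a_ine` (`S_INE`, `Y157/PS/All.lean`) for the localisation of `ℤ` at `l`
(a discrete valuation ring with finite residue field and fraction field `ℚ`; e.g. `W240.S3.zloc`, see how
`Q161/SX`, `W623.SecE` use it, or `num_data` in `Y157/PS/NumF.lean` with `K = ℚ`), `ϖ = l`.  (3) If `k > 0` then `l ^ k` is a nonunit; if
`k < 0` its inverse is.  (4) `Ine.conj`. -/
def S_INV : Prop := ∀ (f : ℤ[X]) (q B : ℕ) (A : Type) [Field A] [Algebra ℚ A] [IsAlgClosure ℚ A],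
  Gd A f q B → q.Prime → ∀ (l : ℕ) (V : ValuationSubring A), At A B l V →
  (∀ σ : A ≃ₐ[ℚ] A, Ine V σ → (∀ i : Rt f A, σ • i = i) ∧ ∀ ζ : A, ζ ^ q = 1 → σ ζ = ζ) ∧
  (∀ z : A, z ≠ 0 → (∀ σ : A ≃ₐ[ℚ] A, Ine V σ → σ z = z) → ∃ k : ℤ, IsU V (z / (l : A) ^ k)) ∧
  (∀ k : ℤ, IsU V ((l : A) ^ k) → k = 0) ∧
  ∀ σ τ : A ≃ₐ[ℚ] A, Dec V σ → Ine V τ → Ine V (σ * τ * σ⁻¹)

section Plc

variable {f : ℤ[X]} {L : Type} [Field L] [NumberField L] {A : Type} [Field A] [Algebra ℚ A]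

/-- `π i` is the prime of `L` given by `V` and the embedding `J i` of `L` in `A`. -/
structure Plc (J : Rt f A → (L →ₐ[ℚ] A)) (l : ℕ) (V : ValuationSubring A)
    (π : Rt f A → HeightOneSpectrum (𝓞 L)) : Prop where
  abv : ∀ i, Abv (π i) l
  inv : ∀ σ : A ≃ₐ[ℚ] A, Dec V σ → ∀ i : Rt f A, π (σ • i) = π i
  tr : ∀ i j : Rt f A, π i = π j → ∃ σ : A ≃ₐ[ℚ] A, Dec V σ ∧ σ • i = j
  sur : ∀ v : HeightOneSpectrum (𝓞 L), Abv v l → ∃ i, π i = v
  mem : ∀ i, ∀ a : 𝓞 L, a ∈ (π i).asIdeal ↔ J i (a : L) ∈ V.nonunits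
  val : ∀ i, ∀ (a : L) (k : ℤ), (π i).valuation L a = WithZero.exp (-k) ↔
    IsU V (J i a / (l : A) ^ k)
  lt : ∀ i, ∀ a b : L, b ≠ 0 → J i a / J i b ∈ V.nonunits →
    (π i).valuation L a < (π i).valuation L b

end Plc

/-- JOB PLC. The primes of `L` above `l` and the embeddings of `L` in `A`.
Proof.  `Q161.SX.S_PRM` (proved: `Pool.Agent.Q161.SX.t_prm` in `Q161/SX/All.lean`), part 1, gives for every embedding `J i` a prime `π i` above
`l` with `mem` and `(IsU V (J i a) ↔ valuation a = 1)`.  `val`: `v(l) = exp (-1)` as `(l)` is squarefree; apply this to `a / l ^ k`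
(`a = 0`: both sides are false).  `lt`: `z = a / b`, `J z ∈ V.nonunits`; if `v(z) ≥ 1` then `v(z) = exp k`, `k ≥ 0`, so `J z * l ^ k` is a
unit of `V` (`val`), so `J z` is not in `V.nonunits` (if `k > 0` it is not even in `V`).  `inv`: `J (σ • i) = σ ∘ J i` (`θ` generates
`L`), and a prime is determined by its elements.  `sur`: `S_PRM`, part 2, gives an embedding `j` of `L`, `j = J i` for `i = j θ`.
`tr`: let `π i = π j`, `τ ∈ G` with `τ i = j`, so `J j = τ ∘ J i`.  By `mem`, `val` the valuation rings `V` and `V' = τ⁻¹ V`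
(`= {z : τ z ∈ V}`) of `A` have the same intersection with `J i (L)`: `J i a ∈ V ↔ v(a) ≤ 1 ↔ J j a ∈ V`.  By `a_conj` (`S_CONJ`,
`Y157/PS`) for `A / J i (L)` there is a `γ ∈ Gal(A / J i (L))` with `z ∈ V' ↔ γ z ∈ V`, so `τ γ⁻¹ ∈ Dec V`, and it maps `i` to `j`. -/
def S_PLC : Prop := ∀ (f : ℤ[X]) (L : Type) [Field L] [NumberField L] (θ : L), Setup f L θ →
  ∀ (q B : ℕ) (A : Type) [Field A] [Algebra ℚ A] [IsAlgClosure ℚ A], Gd A f q B →
  (∀ l : ℕ, l.Prime → ¬ l ∣ B → Squarefree (Ideal.span {(l : 𝓞 L)})) →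
  ∀ J : Rt f A → (L →ₐ[ℚ] A), (∀ i, J i θ = i.1) → ∀ (l : ℕ) (V : ValuationSubring A),
  At A B l V → ∃ π : Rt f A → HeightOneSpectrum (𝓞 L), Plc J l V π

open Classical in
/-- JOB FIB. The number of the embeddings that belong to a prime is its degree.
Proof.  As in the second half of the proof of `ZC.S_PL` (see its docstring in `Pool/Agent/Q51/ZC/Stm2.lean` and its proof;
file name in `ZC/All.lean`).  `∑_{v ∣ l} dg l v = [L : ℚ] = #Rt` (`l` is unramified), so it suffices to show `#π⁻¹(v) ≤ dg l v`.  For `π i = v`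
the map `J i` induces by `Plc.mem` a homomorphism `𝓞/v → κ`, the residue field of `V`; it sends the class of `t = lc θ ∈ 𝓞` to
the class of `lc i`, and different `i` have different classes (`Gd.lc, Gd.dist`); so different `i` give different homomorphisms
from `𝓞/v`, a field with `l ^ (dg l v)` elements, to `κ`; there are at most `dg l v` of these. -/
def S_FIB : Prop := ∀ (f : ℤ[X]) (L : Type) [Field L] [NumberField L] (θ : L), Setup f L θ →
  ∀ (q B : ℕ) (A : Type) [Field A] [Algebra ℚ A] [IsAlgClosure ℚ A], Gd A f q B →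
  (∀ l : ℕ, l.Prime → ¬ l ∣ B → Squarefree (Ideal.span {(l : 𝓞 L)})) →
  ∀ J : Rt f A → (L →ₐ[ℚ] A), (∀ i, J i θ = i.1) → ∀ (l : ℕ) (V : ValuationSubring A),
  At A B l V → ∀ π : Rt f A → HeightOneSpectrum (𝓞 L), Plc J l V π →
  ∀ v : HeightOneSpectrum (𝓞 L), Abv v l →
    1 ≤ dg l v ∧ (univ.filter (fun i => π i = v)).card = dg l v

/-- JOB DEL. Elements with given valuations modulo `q`.
Proof.  `Q161.SX.S_CLU` (proved: `Pool.Agent.Q38.SX.clu Pool.Agent.Q239.EL.un`) gives `B`, and for `k = 1, .., q - 1` and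
`S_k = {v ∌ B : M v ≡ k mod q}` (a finite set) an `α_k ∈ 𝓞 L` with valuation `exp (-1)` at the `v ∈ S_k` and `1` at the other `v ∌ B`;
`δ = ∏ α_k ^ k`. -/
def S_DEL : Prop := ∀ (L : Type) [Field L] [NumberField L] (q : ℕ), q ≠ 0 → ∃ B : ℕ, B ≠ 0 ∧
  ∀ M : HeightOneSpectrum (𝓞 L) → ℤ, {v | M v ≠ 0}.Finite →
  ∃ δ : L, δ ≠ 0 ∧ ∀ v : HeightOneSpectrum (𝓞 L), (B : 𝓞 L) ∉ v.asIdeal → Parq q v δ (M v)

/-- JOB VLB. The values of the Kummer classes at `V`.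
Proof (from `S_INV`).  `val Wf D r i` is `0` for `i ≠ r`, and `1` for `i = r` (`D = l c`, `c` prime to `l`, so a unit of `V`; `Gd.lc`,
`Gd.dist`).  So `val Cf D r i j = [i = r] - [j = r]` and `val ∏_r Cf D r i j ^ M r = M i - M j`.  `U i j` is fixed by the
inertia group (`S_INV` (1)), so `val U i j` is an integer (`S_INV` (2)). -/
def S_VLB : Prop := ∀ (f : ℤ[X]) (q B : ℕ) (A : Type) [Field A] [Algebra ℚ A] [IsAlgClosure ℚ A],
  Gd A f q B → q.Prime → ∀ (l : ℕ) (V : ValuationSubring A), At A B l V → ∀ D : ℤ, (l : ℤ) ∣ D →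
  ¬ (l : ℤ) ^ 2 ∣ D → ∀ (M : Rt f A → ℤ) (U : Rt f A → Rt f A → A), (∀ i j, U i j ≠ 0) →
  (∀ σ : A ≃ₐ[ℚ] A, Dec V σ → ∀ i j, σ (U i j) = U (σ • i) (σ • j)) →
  ∀ i j, PV q V l ((∏ r, Cf f D r i j ^ M r) * U i j ^ q) (M i - M j)

/-- JOB EVQ. Valuations divisible by `q` at all primes of a number field `K ⊆ A`.
Proof: `Q161.SX.S_EVN` is the case `q = 2`; copy its proof (`Pool/Agent/Q38/SX/EVN.lean`; `S_PRM` is `Pool.Agent.Q161.SX.t_prm`) and
replace `2` by `q`: by `S_PRM` (2) there is an embedding `j` of `K` in `A` which gives `w`, it extends to an automorphism `τ` of `A`,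
`IsU V (τ u / l ^ (q m))` gives `w(u / l ^ (q m)) = 1` by `S_PRM` (1), and `w(l) = exp (-e)`. -/
def S_EVQ : Prop := ∀ (A : Type) [Field A] [Algebra ℚ A] [IsAlgClosure ℚ A]
  (K : IntermediateField ℚ A) [NumberField K] (q l : ℕ), l.Prime →
  ∀ V : ValuationSubring A, (l : A) ∈ V.nonunits → ∀ u : K, u ≠ 0 →
  (∀ τ : A ≃ₐ[ℚ] A, PV q V l (τ (u : A)) 0) →
  ∀ w : HeightOneSpectrum (𝓞 K), Abv w l → Parq q w u 0

section Typ

variable {f : ℤ[X]} {A : Type} [Field A] [Algebra ℚ A]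

/-- an equivariant family of elements with valuations divisible by `q` outside `B` -/
structure Ty (q B : ℕ) (t : Rt f A → Rt f A → A) : Prop where
  nz : ∀ i j, t i j ≠ 0
  eqv : ∀ (σ : A ≃ₐ[ℚ] A) (i j : Rt f A), σ (t i j) = t (σ • i) (σ • j)
  val : ∀ l : ℕ, l.Prime → ¬ l ∣ B → ∃ V : ValuationSubring A, (l : A) ∈ V.nonunits ∧
    ∀ i j, PV q V l (t i j) 0

end Typ

/-- JOB TYP. The types are finite in number.
Proof (from `S_EVQ`, `ZC.S_SELF`, proved: `ZC/All.lean`).  For `i, j` let `F_ij = ℚ(i, j) ⊆ A`, a number field.  `t i j` is fixed by the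
`σ` with `σ i = i`, `σ j = j`, so it lies in `F_ij` (`InfiniteGalois.fixedField_fixingSubgroup`), and its conjugates `σ (t i j)` are the
`t (σ • i) (σ • j)`; so by `S_EVQ` all its valuations at the primes not containing `B` are divisible by `q` (such a prime
contains exactly one prime number `l`, and `l ∤ B`).  `S_SELF` for `F_ij`, `B`: a finite set `Y_ij ⊆ F_ij` with
`t i j = y η ^ q`, `y ∈ Y_ij`, `η ∈ F_ij^*`; `ty t` = the family of these (chosen) `y` (an element of the finite set `∏ Y_ij`; in `Fin N` after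
numbering; for `t` which is not a `Ty` any value).  If `ty t = ty t'`, then for all `i j` there is an `e ∈ F_ij^*` with
`t' i j = t i j * e ^ q`, and `e` is fixed by the stabiliser of `(i, j)`.  `eqv_choice` (`Def.lean`; `Δ = Gal(A/ℚ)`, `X = Rt f A × Rt f A`,
`Y = A`, `S = univ`, `Φ (i, j) e = (e ≠ 0 ∧ t' i j = t i j * e ^ q)`) gives an equivariant family `e`. -/
def S_TYP : Prop := ∀ (f : ℤ[X]) (q B : ℕ), 2 ≤ q → B ≠ 0 →
  ∀ (A : Type) [Field A] [Algebra ℚ A] [IsAlgClosure ℚ A],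
  ∃ (N : ℕ) (ty : (Rt f A → Rt f A → A) → Fin N), ∀ t t' : Rt f A → Rt f A → A,
    Ty q B t → Ty q B t' → ty t = ty t' → ∃ e : Rt f A → Rt f A → A,
      (∀ i j, e i j ≠ 0 ∧ t' i j = t i j * e i j ^ q) ∧
      ∀ (σ : A ≃ₐ[ℚ] A) (i j : Rt f A), σ (e i j) = e (σ • i) (σ • j)

/-- JOB APX. Approximation by elements of `L` and by rational numbers.
Proof (from `S_INV`).  `z` is fixed by the inertia group (it is contained in `Dec V` and fixes `i`, `S_INV` (1)), so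
`z = l ^ k z'`, `IsU V z'`, by `S_INV` (2); `z'` has the same invariance.  Let `φ` be a Frobenius element at `V` (`S_FRO` of `Y157/PS`,
`Pool.Agent.Y183.PS.fro`, for the localisation of `ℤ` at `l`; see `Pool/Agent/Q150/SX/Plc.lean`).  (1) `Q161.SX.S_RES` (proved: `Pool.Agent.Q68.SX.res Pool.Agent.Q162.SX.dst`; it gives `B1`) for `j = J i` and `z'`: if
`φ ^ m (J i θ) = J i θ`, then `φ ^ m` fixes `i` and `z'`; so there is `g` with `J i g - z' ∈ V.nonunits`; take `g l ^ k`.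
(2) The same with the number field `ℚ`, `f = X`, `θ = 0` (`Setup X ℚ 0`), or directly: the class of `z'` in the residue field of
`V` satisfies `z' ^ l = z'`, so it lies in the prime field. -/
def S_APX : Prop := ∀ (f : ℤ[X]) (L : Type) [Field L] [NumberField L] (θ : L), Setup f L θ →
  ∃ B1 : ℕ, B1 ≠ 0 ∧ ∀ (q B : ℕ), B1 ∣ B → q.Prime →
  ∀ (A : Type) [Field A] [Algebra ℚ A] [IsAlgClosure ℚ A], Gd A f q B →
  ∀ J : Rt f A → (L →ₐ[ℚ] A), (∀ i, J i θ = i.1) → ∀ (l : ℕ) (V : ValuationSubring A),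
  At A B l V → ∀ z : A, z ≠ 0 →
  (∀ i : Rt f A, (∀ σ : A ≃ₐ[ℚ] A, Dec V σ → σ • i = i → σ z = z) →
    ∃ g : L, (z - J i g) / z ∈ V.nonunits) ∧
  ((∀ σ : A ≃ₐ[ℚ] A, Dec V σ → σ z = z) → ∃ s : ℚ, (z - algebraMap ℚ A s) / z ∈ V.nonunits)

/-- JOB RTV. A zero of `f` modulo `l` gives a zero fixed by the decomposition group.
Proof.  `f(r) = lc ∏ (r - e)` is in `V.nonunits` (`f.eval r` is divisible by `l`; `f` splits, `Gd.crd`), `lc` is a unit, so some
`r - e ∈ V.nonunits`.  For `σ ∈ Dec V`: `r - σ e = σ (r - e) ∈ V.nonunits`, so `σ e - e` is, and `σ e = e` by `Gd.dist`. -/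
def S_RTV : Prop := ∀ (f : ℤ[X]) (q B : ℕ) (A : Type) [Field A] [Algebra ℚ A] [IsAlgClosure ℚ A],
  Gd A f q B → ∀ (l : ℕ) (V : ValuationSubring A), At A B l V → (∃ r : ℤ, (l : ℤ) ∣ f.eval r) →
  ∃ i : Rt f A, ∀ σ : A ≃ₐ[ℚ] A, Dec V σ → σ • i = i

/-- JOB REL. The relation between two elements of the same type.
Proof (from `S_APX`).  `B1` as in `S_APX`.  Let `m_i = M (π i)`.  By `Plc.val` and the hypotheses `μ i ≡ m_i + e`, `μ' i ≡ m_i + e'` modulo `q`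
(the value of `J i δ` is determined: `IsU V (l ^ k)` only for `k = 0`); so `μ i = m_i + e + q n_i`, `μ' i = m_i + e' + q n'_i`, with
`n, n'` invariant under `Dec V` (`Plc.inv`).  `∏_r Wf D r i = (∏_{r ≠ i} (r - i)) D / (lc ∏_{k ≠ i} (i - k)) = D / lc`, as the number of
the `r ≠ i` is even (`Gd.crd`, `deg f` odd); so `∏_r Cf D r i j = 1`.  `Wf D' r i = Wf D r i` for `i ≠ r`, `Wf D' i i = (D'/D) Wf D i i`, so
`∏_r Cf D' r i j ^ m_r = (D'/D)^(m_i - m_j) ∏_r Cf D r i j ^ m_r`.  Put `G i j = ∏_r (Cf D' r i j ^ n'_r / Cf D r i j ^ n_r) / E i j`,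
equivariant under `Dec V` (`σ (Cf D r i j) = Cf D (σ r) (σ i) (σ j)`).  The relation becomes
`(J i δ' / J j δ') / (J i δ / J j δ) = (D'/D)^(m_i - m_j) (G i j)^q`.  Take `j = j0`, `S = (J j0 δ' / J j0 δ) (D'/D)^(-m_j0)`, fixed by `Dec V` (`σ (J i δ) =
J (σ • i) δ`), `G_i = G i j0`, fixed by the `σ ∈ Dec V` with `σ i = i`: `J i δ' = S (D'/D)^(m_i) G_i^q J i δ` for all `i`.  Let `s2 = D'/D`
(`padicValRat l s2 = 0`), `s1 ≈ S` by `S_APX` (2) and for every `v` above `l` choose `i` with `π i = v` (`Plc.sur`) and `g` with `J i g ≈ G_i` by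
`S_APX` (1) (`a ≈ b`: `(a - b)/a ∈ V.nonunits`; compatible with products; `s1, g ≠ 0`).  Then
`J i (δ' - s1 s2^(m_i) g^q δ) / J i δ' = 1 - (s1 / S) (J i g / G_i)^q ∈ V.nonunits`; `Plc.lt`. -/
def S_REL : Prop := ∀ (f : ℤ[X]) (L : Type) [Field L] [NumberField L] (θ : L), Setup f L θ →
  Odd f.natDegree → ∃ B1 : ℕ, B1 ≠ 0 ∧ ∀ (q B : ℕ), B1 ∣ B → q.Prime → q ∣ f.natDegree →
  ∀ (A : Type) [Field A] [Algebra ℚ A] [IsAlgClosure ℚ A], Gd A f q B →
  ∀ J : Rt f A → (L →ₐ[ℚ] A), (∀ i, J i θ = i.1) → ∀ (l : ℕ) (V : ValuationSubring A),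
  At A B l V → ∀ π : Rt f A → HeightOneSpectrum (𝓞 L), Plc J l V π →
  ∀ j0 : Rt f A, (∀ σ : A ≃ₐ[ℚ] A, Dec V σ → σ • j0 = j0) →
  ∀ D D' : ℤ, (l : ℤ) ∣ D → ¬ (l : ℤ) ^ 2 ∣ D → (l : ℤ) ∣ D' → ¬ (l : ℤ) ^ 2 ∣ D' →
  ∀ (μ μ' : Rt f A → ℤ) (E : Rt f A → Rt f A → A),
  (∀ σ : A ≃ₐ[ℚ] A, Dec V σ → ∀ i : Rt f A, μ (σ • i) = μ i ∧ μ' (σ • i) = μ' i) →
  (∀ i j, E i j ≠ 0) →
  (∀ σ : A ≃ₐ[ℚ] A, Dec V σ → ∀ i j, σ (E i j) = E (σ • i) (σ • j)) →
  ∀ δ δ' : L, δ ≠ 0 → δ' ≠ 0 →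
  (∀ i, PV q V l (J i δ) (μ i)) → (∀ i, PV q V l (J i δ') (μ' i)) →
  (∀ i j, J i δ' / J j δ' * (∏ r, Cf f D r i j ^ μ r) * E i j ^ q =
    J i δ / J j δ * ∏ r, Cf f D' r i j ^ μ' r) →
  ∀ M : HeightOneSpectrum (𝓞 L) → ℤ, (∃ e : ℤ, VecP q l δ (fun v => M v + e)) →
  (∃ e : ℤ, VecP q l δ' (fun v => M v + e)) → Rel q l M δ δ'

/-! ## Part B1: local theory at the primes where the curve has good reduction after an unramified twist -/

/-- JOB WG0. Variant of the weight argument `Y157.PS.S_WGT`: the section is one of the twist by `δ₀`, a UNIT, and the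
subgroup of the inertia group is the stabiliser of another element `δ` (as in `Base`).
Proof: the proof of `S_WGT` (files `Pool/Agent/Y748/PS/W1.lean, W2.lean, WGT.lean`) uses the relation between `Y` and `δ` only in the
lemma `Y_mem_LL` (`Y` is fixed by `s(σ)` for `σ` in the inertia group with `σ δ = δ`).  Here `s σ Y = (σ δ₀ / δ₀) Y`, and for `σ ∈ Ine V`
`ζ = σ δ₀ / δ₀` satisfies `ζ ^ ℓ = 1`, `ζ - 1 ∈ V.nonunits`, so `ζ = 1` (`root_eq`, `Base.isU`).  A first draft, generated by a script from these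
files with `δ₀` in place of `δ` in `Sec`, is `Pool/Agent/Q51/SZ/Wgt0.lean.txt` (not compiled yet; `Y_mem_LL` and the last theorem are
to be changed). -/
def S_WG0 : Prop :=
  ∀ (ℓ : ℕ) [Fact ℓ.Prime] (A k κ R M : Type) [CommRing A] [IsDomain A]
    [IsDiscreteValuationRing A] [Field k] [Field κ] [Algebra A k] [Algebra k κ] [Algebra A κ]
    [IsScalarTower A k κ] [IsFractionRing A k] [CharZero k] [IsAlgClosure k κ]
    [Finite (IsLocalRing.ResidueField A)] [Field R] [Field M] [Algebra κ R] [Algebra R M]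
    [Algebra κ M] [IsScalarTower κ R M] (V : ValuationSubring κ) (ϖ : A) (δ : κ) (m : ℤ),
    Pool.Agent.Y157.PS.Base ℓ A k κ V ϖ δ m → ∀ δ₀ : κ, IsU V δ₀ →
    (∃ d : k, δ₀ ^ ℓ = algebraMap k κ d) → ∀ (x : R) (B : Finset κ) (Y : M),
    Pool.Agent.Y157.PS.Cov ℓ κ R M x B Y → Pool.Agent.Y157.PS.Good V B →
    ∀ (F : Type) [Field F] (r : V →+* F), Pool.Agent.Y157.PS.Res V r →
    ∀ _ : Pool.Agent.Y157.PS.Disc ℓ V r,
    ∀ s : (κ ≃ₐ[k] κ) →* RingAut M, Pool.Agent.Y157.PS.Sec k κ R M x Y δ₀ s →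
    ∀ O : ValuationSubring M, Pool.Agent.Y157.PS.Gauss V (algebraMap R M x) O →
      (∀ O' : ValuationSubring M, Pool.Agent.Y157.PS.Gauss V (algebraMap R M x) O' → O' = O) →
    ∀ σ, Ine V σ → σ δ = δ → ∀ z ∈ O, s σ z - z ∈ O.nonunits

/-- JOB UNA. The inertia group acts trivially on the roots of the ratios `(x - e) / (x - e')`.
Proof (from `S_WG0`).  `O` and its uniqueness: `a_gex`, `a_gun` (as in `Y157/PS/Loc2.lean`, `theorem loc`); `a_g2`: `ℓ` is a unit.  Let `σ ∈ Ine V`.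
As in `loc`: there is `γ ∈ Gal(M/R)` with `γ z - s(σ) z ∈ O.nonunits` for `z ∈ O` (`exists_lift`).  `σ ^ ℓ` fixes `δ` (`Base.ratio`,
`Ine.fix_root`), so by `S_WG0` `s(σ ^ ℓ) z ≡ z`, and `γ ^ ℓ` and `1` both lift it: `γ ^ ℓ = 1` (`unique_lift`).  `s(σ) Y = (σ δ₀ / δ₀) Y = Y` (see
`S_WG0`), so `γ Y ≡ Y`; `γ Y = ζ Y` (`Cov.actY`), `Y` is a unit of `O` (`Cov.Y_isU`), so `ζ = 1` (`root_eq`), `γ Y = Y`.  If `γ ≠ 1`, it fixes a place
(`a_exf`), so `γ Y ≠ Y` by `Cov.fixed`, a contradiction.  So `γ = 1`: `s(σ) z ≡ z` modulo `O` for all `z ∈ O`.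
Let `h ^ ℓ = (x - e)/(x - e')`: `x - e`, `x - e'` are units of `O` (`Gauss`, `Good`; see the proof of `Cov.Y_isU`), so `h` is.  `σ e = e`,
`σ e' = e'` by `hfix`, so `(s(σ) h / h) ^ ℓ = 1`, `s(σ) h = ζ h` with `ζ ∈ κ` (`const_of_pow`), `ζ ≡ 1`, so `ζ = 1`. -/
def S_UNA : Prop :=
  ∀ (ℓ : ℕ) [Fact ℓ.Prime] (A k κ R M : Type) [CommRing A] [IsDomain A]
    [IsDiscreteValuationRing A] [Field k] [Field κ] [Algebra A k] [Algebra k κ] [Algebra A κ]
    [IsScalarTower A k κ] [IsFractionRing A k] [CharZero k] [IsAlgClosure k κ]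
    [Finite (IsLocalRing.ResidueField A)] [Field R] [Field M] [Algebra κ R] [Algebra R M]
    [Algebra κ M] [IsScalarTower κ R M] (V : ValuationSubring κ) (ϖ : A) (δ : κ) (m : ℤ),
    Pool.Agent.Y157.PS.Base ℓ A k κ V ϖ δ m → ∀ δ₀ : κ, IsU V δ₀ →
    (∃ d : k, δ₀ ^ ℓ = algebraMap k κ d) → ∀ (x : R) (B : Finset κ) (Y : M),
    Pool.Agent.Y157.PS.Cov ℓ κ R M x B Y → Pool.Agent.Y157.PS.Good V B →
    (∀ σ : κ ≃ₐ[k] κ, Ine V σ → ∀ e ∈ B, σ e = e) →
    ∀ (F : Type) [Field F] (r : V →+* F), Pool.Agent.Y157.PS.Res V r →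
    ∀ _ : Pool.Agent.Y157.PS.Disc ℓ V r,
    ∀ s : (κ ≃ₐ[k] κ) →* RingAut M, Pool.Agent.Y157.PS.Sec k κ R M x Y δ₀ s →
    ∀ e ∈ B, ∀ e' ∈ B, ∀ h : M, h ^ ℓ = (algebraMap R M x - algebraMap κ M e) /
      (algebraMap R M x - algebraMap κ M e') → ∀ σ, Ine V σ → s σ h = h

/-- JOB UNG. The same for the geometrically pro-`ℓ` fundamental group of `d y ^ ℓ = f(x)`, where the value of `d` is
divisible by `ℓ`.
Proof (from `S_UNA`): adapt the proof of `Y157.PS.geo` (files `Y157/PS/GeoA.lean, GeoB.lean, GeoC.lean`: `geoM`, `geoI`, `geo`), with `S_UNA` in place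
of `S_LOC`.  `δ` with `δ ^ ℓ = d / lc` as in `geo`; `m = ℓ j`; `δ₀ = δ / ϖ ^ j` is a unit of `V` with `δ₀ ^ ℓ ∈ k`, and
`σ δ / δ = σ δ₀ / δ₀` (`ϖ ∈ k`), so `Sec .. Y δ s` gives `Sec .. Y δ₀ s` (`Y = δ y`).  For `Base` take an `ℓ`-th root `δ₁` of `ϖ` and `m = 1`.
`hfix`: for `σ ∈ Ine V` and a zero `e` of `f`, `σ e - e ∈ V.nonunits` and the zeros are distinct modulo `V` (`Good`).  (In `geoM`/`geoI` the
conclusion is now about `h` in `N`: transport `h` to `M` by `eqv`.) -/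
def S_UNG : Prop :=
  ∀ (A k F Ω : Type) [CommRing A] [IsDomain A] [IsDiscreteValuationRing A]
    [Finite (IsLocalRing.ResidueField A)] [Field k] [CharZero k] [Algebra A k] [IsFractionRing A k]
    [Field F] [Field Ω] [Algebra k F] [Algebra F Ω] [Algebra k Ω] [IsScalarTower k F Ω]
    [IsAlgClosed Ω] [Algebra.IsAlgebraic F Ω] (ℓ : ℕ) [Fact ℓ.Prime]
    (V : ValuationSubring (algebraicClosure k Ω)),
    (∀ a : A, algebraMap k (algebraicClosure k Ω) (algebraMap A k a) ∈ V) →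
    (∀ a ∈ IsLocalRing.maximalIdeal A,
      algebraMap k (algebraicClosure k Ω) (algebraMap A k a) ∈ V.nonunits) →
    IsUnit (ℓ : A) → ∀ f : A[X], IsUnit f.leadingCoeff →
    (f.map (IsLocalRing.residue A)).Separable → ℓ ∣ f.natDegree → 3 ≤ f.natDegree →
    ∀ (ϖ : A), Irreducible ϖ → ∀ (d : k) (m : ℤ), (ℓ : ℤ) ∣ m → ∀ t : A, IsUnit t →
    d = algebraMap A k t * algebraMap A k ϖ ^ m → ∀ x y : F, Transcendental k x →
    algebraMap k F d * y ^ ℓ = aeval x (f.map (algebraMap A k)) →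
    IntermediateField.adjoin k {x, y} = (⊤ : IntermediateField k F) →
    ∀ S : (algebraicClosure k Ω ≃ₐ[k] algebraicClosure k Ω) →*
      (geomPro ℓ k F Ω ≃ₐ[F] geomPro ℓ k F Ω), Continuous S →
    (∀ σ (c : algebraicClosure k Ω) (z : geomPro ℓ k F Ω), (z : Ω) = (c : Ω) →
      (S σ z : Ω) = (σ c : Ω)) →
    ∀ e e' : algebraicClosure k Ω, aeval e (f.map (algebraMap A k)) = 0 →
      aeval e' (f.map (algebraMap A k)) = 0 → ∀ h : geomPro ℓ k F Ω,
      (h : Ω) ^ ℓ = (algebraMap F Ω x - (e : Ω)) / (algebraMap F Ω x - (e' : Ω)) →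
      ∀ σ : algebraicClosure k Ω ≃ₐ[k] algebraicClosure k Ω, Ine V σ → S σ h = h

end Pool.Agent.Q51.SZ
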