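import Pool.Agent.Q51.SZ.Stm2

/-!
# Project SZ (helper51): the step `S_GLO` for sections of the geometrically pro-`q` fundamental group
-/

set_option autoImplicit false

namespace Pool.Agent.Q51.SZ

open Polynomial NumberField IsDedekindDomain Finset FF
open Pool.Agent.Y157.PS (Dec Ine IsU geomPro)

/-- The main part of JOB GLO: the section of the geometrically pro-`q` group is given.  (`S_GLO` follows by `S_FUN`.) -/
def S_GLO0 : Prop :=
  ∀ (f : ℤ[X]) (q B : ℕ), q.Prime → q ∣ f.natDegree → 3 ≤ f.natDegree →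
  (∀ (E : Type) [Field E] [IsAlgClosed E] [CharZero E], Gd E f q B) →
  ∀ (A : Type) [Field A] [Algebra ℚ A] [IsAlgClosure ℚ A] (D : ℤ), Squarefree D →
  ∀ (K F Ω : Type) [Field K] [NumberField K] [Field F] [Field Ω] [Algebra K F] [Algebra F Ω]
    [Algebra K Ω] [IsScalarTower K F Ω] [IsAlgClosed Ω] [Algebra.IsAlgebraic F Ω]
    (x y : F), Transcendental K x → (D : F) * y ^ q = aeval x f →
  IntermediateField.adjoin K {x, y} = (⊤ : IntermediateField K F) →
  ∀ S : (algebraicClosure K Ω ≃ₐ[K] algebraicClosure K Ω) →*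
      (geomPro q K F Ω ≃ₐ[F] geomPro q K F Ω), Continuous S →
    (∀ σ (c : algebraicClosure K Ω) (z : geomPro q K F Ω), (z : Ω) = (c : Ω) →
      (S σ z : Ω) = (σ c : Ω)) →
  ∃ (N : IntermediateField ℚ A) (M : Type) (_ : Field M) (S : SecH f q A M N.fixingSubgroup),
    FiniteDimensional ℚ N ∧ Module.finrank ℚ N = Module.finrank ℚ K ∧ S.Good D B

end Pool.Agent.Q51.SZ
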