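import Pool.Agent.Y748.PS.WGT
import Pool.Agent.Y157.PS.Num
import Pool.Agent.Q51.SZ.Stm

/-!
# The weight argument for sections of curves with good reduction

(helper51, project SZ.)  Variant of the weight argument of `Pool.Agent.Y748.PS.WGT`: the section belongs to the
twist by `δ₀`, and the subgroup of the inertia group is the stabiliser of another element `δ`.
-/

set_option autoImplicit false
set_option linter.all false

open Polynomial FF Pool.Agent.Y157.PS Pool.Agent.Y748.PS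

namespace Pool.Agent.Q51.SZ

variable {κ R M : Type} [Field κ] [Field R] [Field M] [Algebra κ R] [Algebra R M] [Algebra κ M]
  [IsScalarTower κ R M] {x : R}
variable {k : Type} [Field k] [Algebra k κ] {Y : M} {δ δ₀ : κ} {s : (κ ≃ₐ[k] κ) →* RingAut M}

theorem GI_conj {V : ValuationSubring κ} {O : ValuationSubring M}
    (hO : Gauss V (algebraMap R M x) O)
    (hu : ∀ O' : ValuationSubring M, Gauss V (algebraMap R M x) O' → O' = O)
    (hR : RatF κ x) (hs : Sec k κ R M x Y δ₀ s) {φ : κ ≃ₐ[k] κ} (hφ : Dec V φ) (hφδ : φ δ = δ)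
    {γ : M ≃ₐ[R] M} (hγ : γ ∈ GI (R := R) V O s δ) : conj hR hs φ γ ∈ GI (R := R) V O s δ := by
  obtain ⟨σ, h1, h2, h3⟩ := hγ
  refine ⟨φ * σ * φ⁻¹, ine_conj hφ h1, ?_, h3.conj hO hu hR hs hφ⟩
  rw [AlgEquiv.mul_apply, AlgEquiv.mul_apply, fix_inv hφδ, h2, hφδ]

theorem LL_s {V : ValuationSubring κ} {O : ValuationSubring M}
    (hO : Gauss V (algebraMap R M x) O)
    (hu : ∀ O' : ValuationSubring M, Gauss V (algebraMap R M x) O' → O' = O)
    (hR : RatF κ x) (hs : Sec k κ R M x Y δ₀ s) {φ : κ ≃ₐ[k] κ} (hφ : Dec V φ) (hφδ : φ δ = δ)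
    {z : M} (hz : z ∈ LL R V O s δ) : s φ z ∈ LL R V O s δ := by
  intro g γ hγ
  have h1 : ∀ (g : M ≃ₐ[R] M) (w : M), g (s φ w) = s φ (conj hR hs φ⁻¹ g w) := by
    intro g w
    rw [conj_apply, inv_inv, s_apply_inv]
  rw [h1, h1]
  congr 1
  exact hz _ _ (GI_conj hO hu hR hs (dec_inv hφ) (fix_inv hφδ) hγ)

/-- a level inside `L`, stable under `s(φ)`, with given elements -/
theorem exists_level {ℓ : ℕ} [Fact ℓ.Prime] [CharZero κ] {B : Finset κ}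
    (hk : Algebra.IsAlgebraic k κ)
    (hC : Cov ℓ κ R M x B Y) {V : ValuationSubring κ} {O : ValuationSubring M}
    (hO : Gauss V (algebraMap R M x) O)
    (hu : ∀ O' : ValuationSubring M, Gauss V (algebraMap R M x) O' → O' = O)
    (hs : Sec k κ R M x Y δ₀ s) {φ : κ ≃ₐ[k] κ} (hφ : Dec V φ) (hφδ : φ δ = δ)
    {z₁ z₂ : M} (hz₁ : z₁ ∈ LL R V O s δ) (hz₂ : z₂ ∈ LL R V O s δ) :
    ∃ N : IntermediateField R M, Lev ℓ N ∧ z₁ ∈ N ∧ z₂ ∈ N ∧ N ≤ LL R V O s δ ∧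
      ∀ z, s φ z ∈ N ↔ z ∈ N := by
  haveI := hC.gal
  have hR := hC.rat
  haveI : CharZero R := charZero_of_injective_algebraMap (algebraMap κ R).injective
  have hM : Algebra.IsAlgebraic R M := inferInstance
  obtain ⟨T₁, hT₁, hm₁, hs₁⟩ := exists_orbit (k := k) hk hR hM z₁
  obtain ⟨T₂, hT₂, hm₂, hs₂⟩ := exists_orbit (k := k) hk hR hM z₂
  set T : Set M := {w | (w ∈ T₁ ∨ w ∈ T₂) ∧ w ∈ LL R V O s δ} with hT
  have hTfin : T.Finite := (hT₁.union hT₂).subset fun w hw => hw.1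
  have hTgal : ∀ g : M ≃ₐ[R] M, ∀ w ∈ T, g w ∈ T := by
    intro g w hw
    have h1 : ∀ c : k, (g : M ≃+* M) (algebraMap κ M (algebraMap k κ c)) =
      algebraMap κ M (algebraMap k κ c) := fun c => gal_const g _
    have h2 : (g : M ≃+* M) (algebraMap R M x) = algebraMap R M x := g.commutes x
    refine ⟨?_, LL_gal hw.2 g⟩
    rcases hw.1 with h | h
    · exact Or.inl (hs₁ (g : M ≃+* M) h1 h2 w h)
    · exact Or.inr (hs₂ (g : M ≃+* M) h1 h2 w h)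
  have hTs : ∀ φ : κ ≃ₐ[k] κ, Dec V φ → φ δ = δ → ∀ w ∈ T, s φ w ∈ T := by
    intro φ hφ hφδ w hw
    have h1 : ∀ c : k, (s φ) (algebraMap κ M (algebraMap k κ c)) =
      algebraMap κ M (algebraMap k κ c) := fun c => by rw [hs.const, AlgEquiv.commutes]
    have h2 : (s φ) (algebraMap R M x) = algebraMap R M x := hs.fixx φ
    refine ⟨?_, LL_s hO hu hR hs hφ hφδ hw.2⟩
    rcases hw.1 with h | h
    · exact Or.inl (hs₁ (s φ) h1 h2 w h)
    · exact Or.inr (hs₂ (s φ) h1 h2 w h)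
  haveI : Finite T := hTfin
  set N := IntermediateField.adjoin R T with hN
  haveI hfin : FiniteDimensional R N :=
    IntermediateField.finiteDimensional_adjoin fun w _ => (hM.isAlgebraic w).isIntegral
  have hnorm : Normal R N := by
    rw [IntermediateField.normal_iff_forall_map_le']
    intro g
    rw [hN, IntermediateField.adjoin_map, IntermediateField.adjoin_le_iff]
    rintro _ ⟨w, hw, rfl⟩
    exact IntermediateField.subset_adjoin R T (hTgal g w hw)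
  haveI : Algebra.IsSeparable R N := inferInstance
  have hgal : IsGalois R N := ⟨⟩
  have hNs : ∀ φ : κ ≃ₐ[k] κ, Dec V φ → φ δ = δ → ∀ z ∈ N, s φ z ∈ N := by
    intro φ hφ hφδ z hz
    induction hz using IntermediateField.adjoin_induction with
    | mem y hy => exact IntermediateField.subset_adjoin R T (hTs φ hφ hφδ y hy)
    | algebraMap c =>
      obtain ⟨c', hc'⟩ := sec_R hR hs φ c
      rw [hc']
      exact N.algebraMap_mem c'
    | add a b _ _ ha hb => rw [map_add]; exact add_mem ha hb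
    | inv a _ ha => rw [map_inv₀]; exact inv_mem ha
    | mul a b _ _ ha hb => rw [map_mul]; exact mul_mem ha hb
  refine ⟨N, lev_of_galois hC.pow N hfin hgal, ?_, ?_, ?_, fun z => ⟨fun h => ?_, hNs φ hφ hφδ z⟩⟩
  · exact IntermediateField.subset_adjoin R T ⟨Or.inl hm₁, hz₁⟩
  · exact IntermediateField.subset_adjoin R T ⟨Or.inr hm₂, hz₂⟩
  · rw [hN, IntermediateField.adjoin_le_iff]
    exact fun w hw => hw.2
  · have := hNs φ⁻¹ (dec_inv hφ) (fix_inv hφδ) _ h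
    rwa [s_inv_apply] at this


theorem Y_mem_LL [IsAlgClosed κ] [CharZero κ] {ℓ : ℕ} [Fact ℓ.Prime] {B : Finset κ}
    (hC : Cov ℓ κ R M x B Y) {V : ValuationSubring κ} (hG : Good V B) (hl : IsU V (ℓ : κ))
    (hδ : δ₀ ≠ 0) (hfix : ∀ σ : κ ≃ₐ[k] κ, Ine V σ → σ δ₀ = δ₀)
    {O : ValuationSubring M} (hO : Gauss V (algebraMap R M x) O)
    (hs : Sec k κ R M x Y δ₀ s) : Y ∈ LL R V O s δ := by
  have hU := isU_Y hC hG hO
  intro g γ hγ
  obtain ⟨c, hc, hgc⟩ := Y_gal hC hU.1 g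
  rw [hgc, map_mul, gal_const]
  congr 1
  obtain ⟨σ, h1, h2, h3⟩ := hγ
  have h4 := h3 Y hU.2.1
  rw [hs.fixy, hfix σ h1, div_self hδ, map_one, one_mul] at h4
  obtain ⟨c', hc', hgc'⟩ := Y_gal hC hU.1 γ
  have h5 : algebraMap κ M c' - 1 ∈ O.nonunits := by
    have h6 : algebraMap κ M c' - 1 = Y⁻¹ * (γ Y - Y) := by
      rw [hgc']; field_simp [hU.1]
    rw [h6]
    exact nu_mul hU.2.2 h4
  have h7 : algebraMap κ M c' = 1 := by
    refine rou_eq_one (m := ℓ) ?_ (by rw [← map_pow, hc', map_one]) h5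
    have := isU_alg hO hl
    rwa [map_natCast] at this
  rw [hgc', h7, one_mul]


section

variable {A : Type} [CommRing A] [IsDomain A]
    [IsDiscreteValuationRing A] [Algebra A k] [Algebra A κ]
    [IsScalarTower A k κ] [IsFractionRing A k] [CharZero k] [IsAlgClosure k κ]
    [Finite (IsLocalRing.ResidueField A)]

variable {ℓ : ℕ} [Fact ℓ.Prime] [IsAlgClosed κ] [CharZero κ] {V : ValuationSubring κ}
  {ϖ : A} {m : ℤ} {B : Finset κ}
  {O : ValuationSubring M}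

theorem chi_kum (hB : Base ℓ A k κ V ϖ δ m) (hG2 : S_G2) (hKUM : S_KUM)
    (hC : Cov ℓ κ R M x B Y) (hO : Gauss V (algebraMap R M x) O)
    (hu : ∀ O' : ValuationSubring M, Gauss V (algebraMap R M x) O' → O' = O)
    (hs : Sec k κ R M x Y δ₀ s)
    (hex : ∀ σ : κ ≃ₐ[k] κ, Ine V σ → ∃ γ : M ≃ₐ[R] M, Rel O s σ γ)
    {φ : κ ≃ₐ[k] κ} (hφ : Fro V (Nat.card (IsLocalRing.ResidueField A)) φ) (hφδ : φ δ = δ)
    {h : M} (hh : h ≠ 0) {n : ℕ} {χ : (κ ≃ₐ[k] κ) → κ}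
    (hχ : ∀ σ, Ine V σ → σ δ = δ → χ σ ^ (ℓ ^ n) = 1 ∧
      ∀ γ : M ≃ₐ[R] M, Rel O s σ γ → γ h = algebraMap κ M (χ σ) * h)
    {σ : κ ≃ₐ[k] κ} (hσ : Ine V σ) (hσδ : σ δ = δ) :
    χ (φ * σ * φ⁻¹) = χ σ ^ Nat.card (IsLocalRing.ResidueField A) := by
  refine hKUM ℓ A k κ V ϖ δ m hB φ hφ hφδ n χ (fun σ h1 h2 => (hχ σ h1 h2).1) ?_ ?_ σ hσ hσδ
  · intro σ σ' h1 h2 h1' h2'
    obtain ⟨γ, hγ⟩ := hex σ h1
    obtain ⟨γ', hγ'⟩ := hex σ' h1'
    have h3 := (hχ (σ * σ') (ine_mul h1 h1') (by rw [AlgEquiv.mul_apply, h2', h2])).2 _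
      (Rel.mul hO hu hs h1.1 hγ hγ')
    rw [AlgEquiv.mul_apply, (hχ σ' h1' h2').2 γ' hγ', map_mul, gal_const, (hχ σ h1 h2).2 γ hγ,
      ← mul_assoc, ← map_mul] at h3
    have h4 := mul_right_cancel₀ hh h3
    have h5 := (algebraMap κ M).injective h4
    rw [← h5, mul_comm]
  · obtain ⟨c, hc0, hc⟩ := (hG2 ℓ κ R M x B Y hC V O hO).1 h hh
    obtain ⟨E2, hE2, hE2'⟩ := hs.cont h
    haveI := hE2
    have halg : Algebra.IsAlgebraic k κ := IsAlgClosure.isAlgebraic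
    haveI : FiniteDimensional k (IntermediateField.adjoin k {c}) :=
      IntermediateField.adjoin.finiteDimensional (halg.isAlgebraic c).isIntegral
    refine ⟨IntermediateField.adjoin k {c} ⊔ E2, inferInstance, fun σ hσE h1 h2 => ?_⟩
    rw [IntermediateField.mem_fixingSubgroup_iff] at hσE
    have h3 : σ c = c := hσE c ((le_sup_left : IntermediateField.adjoin k {c} ≤ _)
      (IntermediateField.mem_adjoin_simple_self k c))
    have h4 : s σ h = h := hE2' σ (by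
      rw [IntermediateField.mem_fixingSubgroup_iff]
      exact fun y hy => hσE y ((le_sup_right : E2 ≤ _) hy))
    obtain ⟨γ, hγ⟩ := hex σ h1
    have h5 := hγ _ hc.2.1
    rw [map_div₀, map_div₀, gal_const, hs.const, h3, h4, (hχ σ h1 h2).2 γ hγ] at h5
    have h6 : algebraMap κ M (χ σ) - 1 ∈ O.nonunits := by
      have h7 : algebraMap κ M (χ σ) - 1 = (h / algebraMap κ M c)⁻¹ *
          (algebraMap κ M (χ σ) * h / algebraMap κ M c - h / algebraMap κ M c) := by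
        have hc1 : algebraMap κ M c ≠ 0 := by
          rw [Ne, FaithfulSMul.algebraMap_eq_zero_iff]; exact hc0
        field_simp
      rw [h7]
      exact nu_mul hc.2.2 h5
    have h8 : algebraMap κ M (χ σ) = 1 := by
      refine rou_eq_one (m := ℓ ^ n) ?_ (by rw [← map_pow, (hχ σ h1 h2).1, map_one]) h6
      have := isU_pow (isU_alg hO (isU_ell hB)) n
      rw [map_natCast] at this
      rwa [Nat.cast_pow]
    exact (algebraMap κ M).injective (by rw [h8, map_one])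

/-- the weight argument -/
theorem frob_fix (hB : Base ℓ A k κ V ϖ δ m) (hG2 : S_G2) (hKUM : S_KUM)
    (hC : Cov ℓ κ R M x B Y) (hO : Gauss V (algebraMap R M x) O)
    (hu : ∀ O' : ValuationSubring M, Gauss V (algebraMap R M x) O' → O' = O)
    (hs : Sec k κ R M x Y δ₀ s)
    (hex : ∀ σ : κ ≃ₐ[k] κ, Ine V σ → ∃ γ : M ≃ₐ[R] M, Rel O s σ γ)
    (hcop : Nat.Coprime (Nat.card (IsLocalRing.ResidueField A)) ℓ)
    {φ : κ ≃ₐ[k] κ} (hφ : Fro V (Nat.card (IsLocalRing.ResidueField A)) φ) (hφδ : φ δ = δ)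
    {h : M} (hh : h ≠ 0) {n : ℕ} (hL : h ^ (ℓ ^ n) ∈ LL R V O s δ)
    {γ : M ≃ₐ[R] M} (hγ : γ ∈ GI (R := R) V O s δ) :
    γ (s φ h / h) = s φ h / h := by
  have hl := isU_ell hB
  have hR := hC.rat
  have hh2 : s φ h ≠ 0 := by rw [Ne, EmbeddingLike.map_eq_zero_iff]; exact hh
  have hL2 : (s φ h) ^ (ℓ ^ n) ∈ LL R V O s δ := by
    rw [← map_pow]
    exact LL_s hO hu hR hs hφ.1 hφδ hL
  obtain ⟨χ₁, hχ₁⟩ := chi_exists hG2 hC hl hO hu hex hh hL
  obtain ⟨χ₂, hχ₂⟩ := chi_exists hG2 hC hl hO hu hex hh2 hL2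
  obtain ⟨σ, h1, h2, h3⟩ := hγ
  have hc1 : Ine V (φ * σ * φ⁻¹) := ine_conj hφ.1 h1
  have hc2 : (φ * σ * φ⁻¹) δ = δ := by
    rw [AlgEquiv.mul_apply, AlgEquiv.mul_apply, fix_inv hφδ, h2, hφδ]
  have h4 := (hχ₂ _ hc1 hc2).2 _ (h3.conj hO hu hR hs hφ.1)
  rw [chi_kum hB hG2 hKUM hC hO hu hs hex hφ hφδ hh2 hχ₂ h1 h2, conj_apply, s_inv_apply,
    (hχ₁ σ h1 h2).2 γ h3, map_mul, hs.const, frob_rou hl hφ (hχ₁ σ h1 h2).1] at h4
  have h5 := (algebraMap κ M).injective (mul_right_cancel₀ hh2 h4)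
  have h6 : χ₁ σ = χ₂ σ := eq_of_pow_eq (pow_pos (Fact.out : ℓ.Prime).pos n) (hχ₁ σ h1 h2).1
    (hχ₂ σ h1 h2).1 h5 (Nat.Coprime.pow_right n hcop)
  have h7 : algebraMap κ M (χ₂ σ) ≠ 0 := by
    rw [Ne, FaithfulSMul.algebraMap_eq_zero_iff]
    intro h8
    have := (hχ₂ σ h1 h2).1
    rw [h8, zero_pow (pow_pos (Fact.out : ℓ.Prime).pos n).ne'] at this
    exact zero_ne_one this
  rw [map_div₀, (hχ₁ σ h1 h2).2 γ h3, (hχ₂ σ h1 h2).2 γ h3, h6, mul_div_mul_left _ _ h7]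

end

/-- the weight argument for the twist by a unit -/
theorem wg0 : S_WG0 := by
  intro ℓ _ A k κ R M _ _ _ _ _ _ _ _ _ _ _ _ _ _ _ _ _ _ _ V ϖ δ m hB δ₀ hδ₀ hd₀ x B Y hC hGood
    F _ r hr D s hs O hO hu
  have hG2 := a_g2
  have hG3 := a_g3
  have hPROL := a_prol
  have hDIVS := a_divs
  have hFINS := a_fins
  have hFIXF := a_fixf
  have hSURJ := a_surj
  have hKUM := a_kum
  have hTAU := a_tau
  haveI : IsAlgClosed κ := IsAlgClosure.isAlgClosed k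
  haveI : CharZero κ := charZero_of_injective_algebraMap (algebraMap k κ).injective
  haveI : CharZero R := charZero_of_injective_algebraMap (algebraMap κ R).injective
  haveI halg : Algebra.IsAlgebraic k κ := IsAlgClosure.isAlgebraic
  have hl := isU_ell hB
  have hδ : δ ≠ 0 := by
    rintro rfl
    have := hB.δv.1
    rw [zero_pow (Fact.out : ℓ.Prime).ne_zero, zero_div] at this
    exact this rfl
  obtain ⟨p, a, hp, hchar, ha, hq, hF, hcop⟩ := res_facts hB hr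
  haveI : Fact p.Prime := ⟨hp⟩
  obtain ⟨⟨φ, hφ, hφδ⟩, -⟩ := hTAU ℓ A k κ V ϖ δ m hB
  have hex : ∀ σ : κ ≃ₐ[k] κ, Ine V σ → ∃ γ : M ≃ₐ[R] M, Rel O s σ γ :=
    fun σ hσ => Rel.exists hG3 hC hO hu hs hσ
  have hfix : ∀ σ : κ ≃ₐ[k] κ, Ine V σ → σ δ₀ = δ₀ := by
    intro σ hσ
    obtain ⟨d, hd⟩ := hd₀
    have h1 : (σ δ₀ / δ₀) ^ ℓ = 1 := by
      rw [div_pow, ← map_pow, hd, σ.commutes, ← hd, div_self (pow_ne_zero _ hδ₀.1)]
    have h2 : σ δ₀ / δ₀ - 1 ∈ V.nonunits := by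
      have h3 : σ δ₀ / δ₀ - 1 = δ₀⁻¹ * (σ δ₀ - δ₀) := by
        field_simp [hδ₀.1]
      rw [h3]
      exact non_mul hδ₀.2.2 (hσ.2 δ₀ hδ₀.2.1)
    have h4 := root_eq hl (Fact.out : ℓ.Prime).pos h1 (one_pow ℓ) h2
    rwa [div_eq_one_iff_eq hδ₀.1] at h4
  have hY : Y ∈ LL R V O s δ := Y_mem_LL hC hGood hl hδ₀.1 hfix hO hs
  have hroot : ∀ h : M, h ^ ℓ ∈ LL R V O s δ → h ∈ LL R V O s δ := by
    intro h hh
    by_cases h0 : h = 0
    · rw [h0]; exact zero_mem _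
    intro g γ hγ
    have h1 : g h ≠ 0 := by rw [Ne, EmbeddingLike.map_eq_zero_iff]; exact h0
    have h2 : (g h) ^ ℓ ∈ LL R V O s δ := by
      rw [← map_pow]; exact LL_gal hh g
    obtain ⟨N, hLev, hm1, hYN, hNL, hNs⟩ := exists_level halg hC hO hu hs hφ.1 hφδ h2 hY
    obtain ⟨g0, m0, w, hg0, hg0m, hw, heq⟩ := hSURJ ℓ M N.toSubfield (s φ) hNs
      (hDIVS ℓ κ R M x B Y hC N hLev hYN) (hFINS ℓ κ R M x B Y hC N hLev hYN)
      (hFIXF ℓ κ R M x B Y hC F V r hr hGood hl D p (Nat.card (IsLocalRing.ResidueField A)) a ha hq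
        hF O hO hu N hLev hYN (s φ) (φ : κ ≃+* κ) (fun c => hs.const φ c) (hs.fixx φ) hNs hφ.1
        hφ.2) (g h) 1 h1 (by rw [pow_one]; exact hm1)
    rw [heq, map_mul, frob_fix hB hG2 hKUM hC hO hu hs hex hcop hφ hφδ hg0 (hNL hg0m) hγ,
      LL_fix (hNL hw) hγ]
  have hprim : ∃ ζ : R, IsPrimitiveRoot ζ ℓ := by
    haveI : NeZero ℓ := ⟨(Fact.out : ℓ.Prime).ne_zero⟩
    haveI : NeZero (ℓ : κ) := ⟨hl.1⟩
    obtain ⟨ζ, hζ⟩ := HasEnoughRootsOfUnity.exists_primitiveRoot κ ℓ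
    exact ⟨algebraMap κ R ζ, hζ.map_of_injective (algebraMap κ R).injective⟩
  have htop := hPROL ℓ R M hprim hC.gal hC.pow (LL R V O s δ) hroot
  intro σ hσ hσδ z hz
  obtain ⟨γ, hγ⟩ := hex σ hσ
  have h1 : z ∈ LL R V O s δ := by rw [htop]; trivial
  have h2 := hγ z hz
  rw [LL_fix h1 ⟨σ, hσ, hσδ, hγ⟩] at h2
  have h3 := neg_mem h2
  rwa [neg_sub] at h3

end Pool.Agent.Q51.SZ
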