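import Pool.Agent.Q51.SZ.Asm4
import Pool.Agent.Q182.SZ.Gd
import Pool.Agent.Q124.SZ.PLC
import Pool.Agent.Q124.SZ.FIB
import Pool.Agent.Q24.SZ.Del
import Pool.Agent.Q124.SZ.VLB
import Pool.Agent.Q285.SZ.EVQ
import Pool.Agent.Q124.SZ.TYP
import Pool.Agent.Q14.SZ.UNA
import Pool.Agent.Q14.SZ.UNG
import Pool.Agent.Q166.SZ.LCR
import Pool.Agent.Q166.SZ.LOK
import Pool.Agent.Q198.SZ.IDX
import Pool.Agent.Q162.SZ.KSY
import Pool.Agent.Q162.SZ.PRR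
import Pool.Agent.Q277.SZ.Nor
import Pool.Agent.Q51.SZ.Wgt0
import Pool.Agent.Q38.SZ.INV
import Pool.Agent.Q166.SZ.APX
import Pool.Agent.Q26.SZ.Rtv
import Pool.Agent.Q26.SZ.Km1
import Pool.Agent.Q150.SZ.Rel
import Pool.Agent.Q162.SZ.Glo3
import Pool.Agent.Q162.SZ.Glo4

/-! # Project SZ: the proofs of the jobs, and the main theorem -/

set_option autoImplicit false

namespace Pool.Agent.Q51.SZ

open Polynomial
open Pool.Agent.Q51.ZC (numLocSoluble)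

theorem t_gd : S_GD := Pool.Agent.Q182.SZ.gd
theorem t_inv : S_INV := Pool.Agent.Q38.SZ.inv
theorem t_plc : S_PLC := Pool.Agent.Q124.SZ.plc
theorem t_fib : S_FIB := Pool.Agent.Q124.SZ.fib
theorem t_del : S_DEL := Pool.Agent.Q24.SZ.del
theorem t_vlb : S_VLB := Pool.Agent.Q124.SZ.vlb t_inv
theorem t_evq : S_EVQ := Pool.Agent.Q285.SZ.evq
theorem t_typ : S_TYP := Pool.Agent.Q124.SZ.typ t_evq
theorem t_apx : S_APX := Pool.Agent.Q166.SZ.apx t_inv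
theorem t_rtv : S_RTV := Pool.Agent.Q26.SZ.rtv
theorem t_rel : S_REL := Pool.Agent.Q150.SZ.rel t_apx
theorem t_una : S_UNA := Pool.Agent.Q14.SZ.una wg0
theorem t_ung : S_UNG := Pool.Agent.Q14.SZ.ung t_una
theorem t_lcr : S_LCR := Pool.Agent.Q166.SZ.lcr
theorem t_lok : S_LOK := Pool.Agent.Q166.SZ.lok t_ung t_lcr
theorem t_idx : S_IDX := Pool.Agent.Q198.SZ.idx
theorem t_glo0 : S_GLO0 := Pool.Agent.Q162.SZ.glo0 t_lok t_idx
theorem t_glo : S_GLO := Pool.Agent.Q162.SZ.glo t_glo0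
theorem t_km1 : S_KM1 := Pool.Agent.Q26.SZ.km1
theorem t_ksy : S_KSY := Pool.Agent.Q162.SZ.ksy t_km1 t_inv
theorem t_nor : S_NOR := Pool.Agent.Q277.SZ.nor Pool.Agent.Q162.SZ.prr Pool.Agent.Q162.SZ.pru t_inv

/-- The main theorem. -/
theorem main {a b : ℤ} {n m : ℕ} (hn : Odd n) (hm : 1 < m) (hmn : m ∣ n)
    (hirr : Irreducible (C (a : ℚ) * X ^ n + C (b : ℚ))) :
    ∃ δ C : ℝ, 0 < δ ∧ ∀ X : ℝ, 3 ≤ X →
      numAny a b n m X ≤ C * Real.log X ^ (-δ) * numLocSoluble a b n m X :=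
  main_sz t_gd t_plc t_fib t_del t_vlb t_typ t_rtv t_rel t_glo0 t_glo t_ksy t_nor hn hm hmn hirr

end Pool.Agent.Q51.SZ
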