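import Pool.Agent.Q51.SZ.Stm

/-!
# Project SZ (helper51): statements of the jobs, Part B2 (sections) and Part C (norms)

For the notation see `Stm.lean`.
-/

set_option autoImplicit false

namespace Pool.Agent.Q51.SZ

open Polynomial NumberField IsDedekindDomain Finset FF
open Pool.Agent.Y157.PS (Dec Ine IsU geomPro)
open Pool.Agent.Q51.EL (Abv Setup)
open Pool.Agent.Q51.SE (Parq)
open Pool.Agent.Q51.ZC (VecP Rel dg)

/-! ## Part B2: local and global sections -/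

/-- JOB LCR. The local theorem at the primes where the value of `D` is prime to `ℓ`, in terms of the canonical roots
of the ratios.  `κ = algebraicClosure k Ω`, `N = geomPro ℓ k F Ω`.
Proof.  `Y157.PS.geo a_loc a_cov a_ndisc` (`GeoC.lean`, `All.lean`) gives `W` and the root `e = r` (`r ∈ rts f₀ κ`, fixed by `Dec V`, `x - r ∈ W.nonunits`, residues
of elements of `W` are constants, `S σ` preserves `W` for `σ ∈ Dec V`; `W ⊇ κ` since constants are integral over `k`, see `alg_mem`).  `x - i` is a unit of `W`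
with residue `r - i` for `i ≠ r`.
For `i, j ≠ r` let `h i j ∈ N` with `(h i j)^ℓ = ((x - i)/(x - j)) ((r - j)/(r - i))`: exists by `a_rts` (`Y157/PS/Num.lean`) and since constants have
`ℓ`-th roots; it is a unit of `W` with residue `c`, `c^ℓ = 1`, divide by it: `h i j ≡ 1`, i.e. `h i j - 1 ∈ W.nonunits`.  It is the only
`ℓ`-th root `≡ 1` (two differ by a constant `ζ ≡ 1`, a constant in `W.nonunits` is `0`, so `ζ = 1`).  For `σ ∈ Dec V` `S σ (h i j) ≡ 1` is an `ℓ`-th root of the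
conjugate (`S σ x = x`, `S σ c = σ c`, `σ r = r`), so `S σ (h i j) = h (σ i) (σ j)`.
Put `g i j = h i j` for `i, j ≠ r`, `g r r = 1`, for `i ≠ r`: `g i r = (x - i) / ((r - i) y) * ∏_{k ≠ r, i} h k i`, `g r i = (g i r)⁻¹` (and `1` if `i` or `j` is not a
zero).  Check for `(i, r)`: `(g i r)^ℓ = (x - i)^ℓ / ((r - i)^ℓ y^ℓ) ∏_{k ≠ r, i} ((x - k)/(x - i)) ((r - i)/(r - k))`, and `D y^ℓ = lc ∏ (x - k)`.  If `ℓ = deg f`,
then this is `((x - i)/(r - i))^2 ..`; in general `n = deg f₀ = ℓ n'`: take `g i r = ((x - i)/(r - i))^(n') / y * ∏_{k ≠ r, i} h k i`: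
`(g i r)^ℓ = ((x - i)/(r - i))^n y^(-ℓ) ((r - i)/(x - i))^(n-2) ∏_{k ≠ r, i} (x - k)/(r - k) = ((x - i)/(r - i))^2 (D/lc) ∏_{k ≠ r, i} (x - k)/(r - k) / ∏_k (x - k)
= (x - i) / ((x - r)) * (D / (lc (r - i)^2 ∏_{k ≠ r, i} (r - k))) = ((x - i)/(x - r)) * (D / (lc ∏_{k ≠ r} (r - k))) / (r - i)`, and
`Cf D r i r = Wf D r i / Wf D r r = (r - i) / (D / (lc ∏_{k ≠ r} (r - k)))`.  So `(x - i)/(x - r) = Cf D r i r * (g i r)^ℓ`.  `S σ (g i r) = g (σ i) r` (`S σ y = y`). -/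
def S_LCR : Prop :=
  ∀ (A k F Ω : Type) [CommRing A] [IsDomain A] [IsDiscreteValuationRing A]
    [Finite (IsLocalRing.ResidueField A)] [Field k] [CharZero k] [Algebra A k] [IsFractionRing A k]
    [Field F] [Field Ω] [Algebra k F] [Algebra F Ω] [Algebra k Ω] [IsScalarTower k F Ω]
    [IsAlgClosed Ω] [Algebra.IsAlgebraic F Ω] (ℓ : ℕ) [Fact ℓ.Prime]
    (V : ValuationSubring (algebraicClosure k Ω)),
    (∀ a : A, algebraMap k (algebraicClosure k Ω) (algebraMap A k a) ∈ V) →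
    (∀ a ∈ IsLocalRing.maximalIdeal A,
      algebraMap k (algebraicClosure k Ω) (algebraMap A k a) ∈ V.nonunits) →
    IsUnit (ℓ : A) → ∀ f : A[X], IsUnit f.leadingCoeff →
    (f.map (IsLocalRing.residue A)).Separable → ℓ ∣ f.natDegree → 3 ≤ f.natDegree →
    ∀ f₀ : ℤ[X], f.map (algebraMap A k) = f₀.map (Int.castRingHom k) →
    f₀.natDegree = f.natDegree →
    ∀ (ϖ : A), Irreducible ϖ → ∀ (D m : ℤ), ¬ (ℓ : ℤ) ∣ m → ∀ t : A, IsUnit t →
    (D : k) = algebraMap A k t * algebraMap A k ϖ ^ m → ∀ x y : F, Transcendental k x →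
    (D : F) * y ^ ℓ = aeval x f₀ →
    IntermediateField.adjoin k {x, y} = (⊤ : IntermediateField k F) →
    ∀ S : (algebraicClosure k Ω ≃ₐ[k] algebraicClosure k Ω) →*
      (geomPro ℓ k F Ω ≃ₐ[F] geomPro ℓ k F Ω), Continuous S →
    (∀ σ (c : algebraicClosure k Ω) (z : geomPro ℓ k F Ω), (z : Ω) = (c : Ω) →
      (S σ z : Ω) = (σ c : Ω)) →
    ∃ (r : algebraicClosure k Ω) (hr : r ∈ rts f₀ (algebraicClosure k Ω)),
      (∀ σ : algebraicClosure k Ω ≃ₐ[k] algebraicClosure k Ω, Dec V σ → σ r = r) ∧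
      ∃ g : algebraicClosure k Ω → algebraicClosure k Ω → geomPro ℓ k F Ω,
      ∀ (i : algebraicClosure k Ω) (hi : i ∈ rts f₀ (algebraicClosure k Ω))
        (j : algebraicClosure k Ω) (hj : j ∈ rts f₀ (algebraicClosure k Ω)),
        (algebraMap F Ω x - (i : Ω)) / (algebraMap F Ω x - (j : Ω)) =
          ((Cf f₀ D ⟨r, hr⟩ ⟨i, hi⟩ ⟨j, hj⟩ : algebraicClosure k Ω) : Ω) *
            ((g i j : geomPro ℓ k F Ω) : Ω) ^ ℓ ∧
        ∀ σ : algebraicClosure k Ω ≃ₐ[k] algebraicClosure k Ω, Dec V σ →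
          S σ (g i j) = g (σ i) (σ j)

/-- JOB LOK. The local theorem over number fields.  `κ = algebraicClosure K Ω`.
Proof (from `S_UNG`, `S_LCR`).  `v = {a ∈ 𝓞 K : a ∈ V.nonunits}` is a prime ideal `≠ 0` (it contains `l`).  `num_data` (`Y157/PS/NumF.lean`) for `v`,
`ℓ = q`, `g = f.map (algebraMap ℤ (𝓞 K))`, `b = D`, `n` with `D ∈ v^n`, `D ∉ v^(n+1)`.  Its hypotheses: `lc ∉ v` (`Gd.lc`); `f` is separable modulo `v`: over
the residue field of `V`, an extension of `𝓞 K/v`, it is `lc ∏ (X - e)` with different `e` (`Gd.int`, `Gd.dist`, `Gd.crd`); `q ∉ v` since `q` is prime to `l`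
(`Gd.nq`).  It gives a discrete valuation ring `A` with the properties needed in `S_UNG`, `S_LCR` (fraction field `K`).
If `l ∤ D`: `D` is a unit of `V`, `n = 0`; `S_UNG`.  If `l ∣ D` and `q ∣ n`: `S_UNG`, and `ϖ` = the irreducible element, `e = n` (`n ≠ 0`, since `D ∈ V.nonunits`):
`ϖ^n / l = (D / l) / t`, a unit of `V` (`D / l` is an integer prime to `l`).  If `l ∣ D` and `q ∤ n`: `S_LCR`. -/
def S_LOK : Prop :=
  ∀ (f : ℤ[X]) (q B : ℕ), q.Prime → q ∣ f.natDegree → 3 ≤ f.natDegree →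
  ∀ (K F Ω : Type) [Field K] [NumberField K] [Field F] [Field Ω] [Algebra K F] [Algebra F Ω]
    [Algebra K Ω] [IsScalarTower K F Ω] [IsAlgClosed Ω] [Algebra.IsAlgebraic F Ω],
  Gd (algebraicClosure K Ω) f q B → ∀ D : ℤ, Squarefree D → ∀ x y : F, Transcendental K x →
  (D : F) * y ^ q = aeval x f →
  IntermediateField.adjoin K {x, y} = (⊤ : IntermediateField K F) →
  ∀ S : (algebraicClosure K Ω ≃ₐ[K] algebraicClosure K Ω) →*
      (geomPro q K F Ω ≃ₐ[F] geomPro q K F Ω), Continuous S →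
    (∀ σ (c : algebraicClosure K Ω) (z : geomPro q K F Ω), (z : Ω) = (c : Ω) →
      (S σ z : Ω) = (σ c : Ω)) →
  ∀ (l : ℕ) (V : ValuationSubring (algebraicClosure K Ω)), At (algebraicClosure K Ω) B l V →
  ((∀ i ∈ rts f (algebraicClosure K Ω), ∀ j ∈ rts f (algebraicClosure K Ω),
      ∀ h : geomPro q K F Ω,
      (h : Ω) ^ q = (algebraMap F Ω x - (i : Ω)) / (algebraMap F Ω x - (j : Ω)) →
      ∀ σ : algebraicClosure K Ω ≃ₐ[K] algebraicClosure K Ω, Ine V σ → S σ h = h) ∧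
    ((l : ℤ) ∣ D → ∃ (ϖ : K) (e : ℕ), e ≠ 0 ∧ q ∣ e ∧
      IsU V (algebraMap K (algebraicClosure K Ω) ϖ ^ e / (l : algebraicClosure K Ω)))) ∨
  ((l : ℤ) ∣ D ∧ ∃ (r : algebraicClosure K Ω) (hr : r ∈ rts f (algebraicClosure K Ω)),
      (∀ σ : algebraicClosure K Ω ≃ₐ[K] algebraicClosure K Ω, Dec V σ → σ r = r) ∧
      ∃ g : algebraicClosure K Ω → algebraicClosure K Ω → geomPro q K F Ω,
      ∀ (i : algebraicClosure K Ω) (hi : i ∈ rts f (algebraicClosure K Ω))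
        (j : algebraicClosure K Ω) (hj : j ∈ rts f (algebraicClosure K Ω)),
        (algebraMap F Ω x - (i : Ω)) / (algebraMap F Ω x - (j : Ω)) =
          ((Cf f D ⟨r, hr⟩ ⟨i, hi⟩ ⟨j, hj⟩ : algebraicClosure K Ω) : Ω) *
            ((g i j : geomPro q K F Ω) : Ω) ^ q ∧
        ∀ σ : algebraicClosure K Ω ≃ₐ[K] algebraicClosure K Ω, Dec V σ →
          S σ (g i j) = g (σ i) (σ j))

/-- JOB IDX. Divisibility of the ramification index.
Proof (from `S_INE`: `a_ine` in `Y157/PS/All.lean`, for the localisation of `ℤ` at `l`; compare `S_INV`).  Let `I = InG V`, `I' = I ∩ H`, of finite index `n'` in `I`,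
`n' = H.relIndex I`.  `N = ∏_{τ ∈ I/I'} τ ϖ` (well defined: `ϖ` is fixed by `H`) is fixed by `I`, `ϖ ≠ 0`, so `IsU V (N / l^j)` for some `j`.  `τ (ϖ^e / l)` is a unit of `V`
for all `τ ∈ I`, so `IsU V (N^e / l^(n'))`; so `IsU V (l^(n' - j e))`, `n' = j e`, `q ∣ e ∣ n'`. -/
def S_IDX : Prop := ∀ (A : Type) [Field A] [Algebra ℚ A] [IsAlgClosure ℚ A] (q l : ℕ), l.Prime →
  ∀ V : ValuationSubring A, (l : A) ∈ V.nonunits → ∀ N : IntermediateField ℚ A,
  FiniteDimensional ℚ N → ∀ (ϖ : A) (e : ℕ), ϖ ∈ N → e ≠ 0 → q ∣ e →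
  IsU V (ϖ ^ e / (l : A)) → q ∣ N.fixingSubgroup.relIndex (InG V)

/-- JOB GLO. From a section of the fundamental group over a number field to the abstract section.
Proof (from `S_LOK`, `S_IDX`; `hFUN` of `Pool.Agent.Q52.SecX` for `S_FUN` of `Y157/PS/Stm6.lean`; compare `theorem fineP` in `Y157/PS/Sup2.lean`).
`y` is algebraic over `K(x)`; `S_FUN` gives `F₀, Ω₀, x₀, y₀` and `S₀ : Gal(κ/K) → Gal(N₀/F₀)`, `κ = algebraicClosure K Ω₀`, `N₀ = geomPro q K F₀ Ω₀`.  `κ` is an algebraic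
closure of `ℚ`; let `e : A ≃+* κ` be an isomorphism, `N = e⁻¹(K) ⊆ A`, so `[N : ℚ] = [K : ℚ]`; for `σ ∈ N.fixingSubgroup` `e σ e⁻¹` is a `K`-automorphism of
`κ`.  `M = N₀`, `s σ = S₀ (e σ e⁻¹)` as a ring automorphism, `ι a = e a` (`const_geomPro` in `GeoC.lean`), `x = x₀`.  `cont`: `Y157.PS.cont_fix` (used in `GeoB.lean`); a finite
extension of `K` in `κ` corresponds to a finite extension of `ℚ` in `A`.  `htr`: `x₀` is transcendental over `K`.  `hrt`: `a_rts` (`Y157/PS/Num.lean`) with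
`f.map (Int.castRingHom K)`; separable because `f` has `deg f` different zeros in `A` (`Gd.crd`; `f ≠ 0`).  `Good`: for `V` let `V' = e(V)` (`V.comap e.symm`); `S_LOK` for
`V'`; `Dec V' (e σ e⁻¹) ↔ Dec V σ`, similarly for `Ine`; `e` maps `rts f A` to `rts f κ` and `Cf` to `Cf`; the index by `S_IDX` with `e⁻¹ ϖ`. -/
def S_GLO : Prop :=
  ∀ (f : ℤ[X]) (q B : ℕ), q.Prime → q ∣ f.natDegree → 3 ≤ f.natDegree →
  (∀ (E : Type) [Field E] [IsAlgClosed E] [CharZero E], Gd E f q B) →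
  ∀ (A : Type) [Field A] [Algebra ℚ A] [IsAlgClosure ℚ A] (D : ℤ), Squarefree D →
  ∀ (K F Ω : Type) [Field K] [NumberField K] [Field F] [Field Ω] [Algebra K F] [Algebra F Ω]
    [Algebra K Ω] [IsScalarTower K F Ω] [IsAlgClosed Ω] [Algebra.IsAlgebraic F Ω]
    (U : Set (ValuationSubring F)), (∀ O ∈ U, ∀ c : K, algebraMap K F c ∈ O) →
  ∀ (_ : Pool.Agent.W620.SC.GSection K F Ω U) (x y : F), Transcendental K x →
  (D : F) * y ^ q = aeval x f →
  ∃ (N : IntermediateField ℚ A) (M : Type) (_ : Field M) (S : SecH f q A M N.fixingSubgroup),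
    FiniteDimensional ℚ N ∧ Module.finrank ℚ N = Module.finrank ℚ K ∧ S.Good D B

/-- JOB KM1. Kummer elements.
Proof: as `Pool/Agent/Q150/SX/Kum.lean`.  Let `α ^ q = (x - i)/(x - j)` (`hrt`), `α ≠ 0` by `htr`, `T` = the subgroup of `Gal(A/N)` fixing `i` and `j`.  For `σ ∈ T`
`(s σ α / α)^q = 1`, so `s σ α = ι ζ * α` (`Pool.Agent.W620.SC.root_mem`).  `W620.SC.exists_fixed_multiple` (`W620/SC/Core.lean`) with `k = N`, `s` transported to `Gal(A/N)` by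
`IntermediateField.fixingSubgroupEquiv`, and `E` from `cont` (its compositum with `N`): `b ≠ 0` with `β = ι b * α` fixed by `T`; `a = b^(-q)`. -/
def S_KM1 : Prop := ∀ (f : ℤ[X]) (q : ℕ) (A : Type) [Field A] [Algebra ℚ A] [IsAlgClosure ℚ A]
  (N : IntermediateField ℚ A) [FiniteDimensional ℚ N] (M : Type) [Field M]
  (S : SecH f q A M N.fixingSubgroup), q ≠ 0 → ∀ i j : Rt f A, ∃ (a : A) (β : M), a ≠ 0 ∧ β ≠ 0 ∧
    S.ι a * β ^ q = (S.x - S.ι i.1) / (S.x - S.ι j.1) ∧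
    ∀ σ : N.fixingSubgroup, σ.1 • i = i → σ.1 • j = j → S.s σ β = β

/-- JOB KSY. The Kummer classes of an abstract section.
Proof (from `S_KM1`).  `eqv_choice` (`Def.lean`) with `Δ = N.fixingSubgroup`, `X = Rt f A × Rt f A`, `Y = A × M` (action `(σ, s σ)`), `S = univ`,
`Φ (i, j) (a, β) = (a ≠ 0 ∧ β ≠ 0 ∧ ι a * β ^ q = (x - i)/(x - j))`: families `a i j`, `β i j` with `σ (a i j) = a (σ i) (σ j)`, `s σ (β i j) = β (σ i) (σ j)` (if `β` is
fixed by `s σ`, then `ι a` is, so `σ a = a`).  Local conditions: an element `z ∈ M` with `z ^ q = ι c` is `ι c'` (`A` is algebraically closed: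
`Pool.Agent.W620.SC.root_mem` or `IsAlgClosed.exists_pow_nat_eq`).  `LocU`: `α = β i j * ι b`, `b^q = a i j`, satisfies `α^q = (x - i)/(x - j)`, so
`s σ α = α` for `σ ∈ N.fixingSubgroup`, `Ine V σ`; such `σ` fix `i, j` (`S_INV` (1)), so `s σ (β i j) = β i j` and `σ b = b`; `u i j = b`.  `LocR`:
`ι (a i j / Cf D r i j) = (g i j / β i j)^q` (`Cf ≠ 0`: otherwise the left side of the relation for `g` would be `0`), so `g i j / β i j = ι (u i j)`, `a i j = Cf D r i j * u i j ^ q`, and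
`σ (u i j) = u (σ i) (σ j)` for `σ ∈ Dec V`. -/
def S_KSY : Prop := ∀ (f : ℤ[X]) (q B : ℕ) (A : Type) [Field A] [Algebra ℚ A] [IsAlgClosure ℚ A],
  Gd A f q B → q.Prime → ∀ (N : IntermediateField ℚ A) [FiniteDimensional ℚ N] (M : Type) [Field M]
  (S : SecH f q A M N.fixingSubgroup) (D : ℤ), D ≠ 0 → S.Good D B →
  ∃ a : Rt f A → Rt f A → A, KSys f q A D B N.fixingSubgroup a

/-! ## Part C: norms from `N` to `ℚ` -/

/-- JOB PRR. Products over a finite `Δ`-set, first part.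
Proof.  `eqv_choice` (`Def.lean`) with `Y = R × (R → R → A)` (`σ` acts on `u` by `(σ u) i j = σ (u (σ⁻¹ i) (σ⁻¹ j))`), `Φ c (r, u) = ∀ i j, av c i j = C r i j * u i j ^ q`:
equivariant `r_c`, `u_c`.  `M i = #{c : r_c = i}`, `U i j = ∏_c u_c i j`. -/
def S_PRR : Prop := ∀ (Δ X R A : Type) [Group Δ] [Fintype X] [MulAction Δ X] [Fintype R]
  [MulAction Δ R] [Field A] [MulSemiringAction Δ A] (q : ℕ) (C : R → R → R → A)
  (av : X → R → R → A),
  (∀ (σ : Δ) (r i j : R), σ • C r i j = C (σ • r) (σ • i) (σ • j)) →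
  (∀ (σ : Δ) (c : X) (i j : R), σ • av c i j = av (σ • c) (σ • i) (σ • j)) →
  (∀ c : X, ∃ r : R, (∀ σ : Δ, σ • c = c → σ • r = r) ∧ ∃ u : R → R → A, ∀ i j,
    av c i j = C r i j * u i j ^ q ∧ ∀ σ : Δ, σ • c = c → σ • u i j = u (σ • i) (σ • j)) →
  ∃ (M : R → ℕ) (U : R → R → A), (∀ (σ : Δ) (i : R), M (σ • i) = M i) ∧
    ∑ i, M i = Fintype.card X ∧ (∀ (σ : Δ) (i j : R), σ • U i j = U (σ • i) (σ • j)) ∧
    ∀ i j, ∏ c, av c i j = (∏ r, C r i j ^ M r) * U i j ^ q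

/-- JOB PRU. Products over a finite `Δ`-set, second part.
Proof.  For fixed `i j`: `eqv_choice` with `Δ = I`, `X`, `Y = A`, `Φ c u = (av c i j = u ^ q)` gives `u_c i j` with `τ (u_c i j) = u_(τ c) i j` for `τ ∈ I`.
`U i j = ∏_c u_c i j` is fixed by `I`: first assertion.  Second: let `σ ∈ Δ`, `ζ_c = σ (u_c i j) / u_(σ c) (σ i) (σ j)`, so `ζ_c ^ q = 1` (`av ≠ 0`).  For `τ ∈ I`,
`τ' = σ τ σ⁻¹ ∈ I`: `σ (u_(τ c) i j) = σ τ (u_c i j) = τ' σ (u_c i j)` and `u_(σ τ c) (σ i) (σ j) = τ' u_(σ c) (σ i) (σ j)`, so `ζ_(τ c) = τ' ζ_c = ζ_c`.  So `ζ` is constant on the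
orbits of `I` on `X`, whose cardinalities are divisible by `q`: `∏_c ζ_c = 1`, i.e. `σ (U i j) = U (σ i) (σ j)` (`∏_c u_(σ c) .. = ∏_c u_c ..`).  `#X` is the sum of
the cardinalities of the orbits. -/
def S_PRU : Prop := ∀ (Δ X R A : Type) [Group Δ] [Fintype X] [MulAction Δ X] [MulAction Δ R]
  [Field A] [MulSemiringAction Δ A] (I : Subgroup Δ) [I.Normal] (q : ℕ) (av : X → R → R → A),
  0 < q → (∀ τ ∈ I, ∀ i : R, τ • i = i) → (∀ τ ∈ I, ∀ ζ : A, ζ ^ q = 1 → τ • ζ = ζ) →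
  (∀ c i j, av c i j ≠ 0) →
  (∀ (σ : Δ) (c : X) (i j : R), σ • av c i j = av (σ • c) (σ • i) (σ • j)) →
  (∀ c : X, ∃ u : R → R → A, ∀ i j, av c i j = u i j ^ q ∧
    ∀ τ ∈ I, τ • c = c → τ • u i j = u i j) →
  (∃ U : R → R → A, ∀ i j, ∏ c, av c i j = U i j ^ q ∧ ∀ τ ∈ I, τ • U i j = U i j) ∧
  ((∀ c : X, q ∣ Nat.card (MulAction.orbit I c)) → q ∣ Fintype.card X ∧
    ∃ U : R → R → A, (∀ (σ : Δ) (i j : R), σ • U i j = U (σ • i) (σ • j)) ∧
      ∀ i j, ∏ c, av c i j = U i j ^ q)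

/-- JOB NOR. Norms of the Kummer classes.
Proof (from `S_PRR`, `S_PRU`, `S_INV`).  `G = Gal(A/ℚ)`, `H = N.fixingSubgroup`, of index `d = [N : ℚ]` (`IntermediateField.finrank_eq_fixingSubgroup_index`); choose `d'` with
`d d' ≡ 1 mod q`.  For a coset `c = g H` let `av c i j = g (a (g⁻¹ i) (g⁻¹ j))` (well defined by `KSys.eqv`); `σ (av c i j) = av (σ c) (σ i) (σ j)` for `σ ∈ G`.
`b i j = (∏_c av c i j)^(d')`; `nz`, `eqv` are clear.  Let `V` be above `l ∤ B`, `Δ = DcG V`, `I = InG V` (as a subgroup of `Δ`).  For `c = g H` let `V_g = {z : g z ∈ V}`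
(`V.comap g`); `At A B l V_g`, `Dec V_g σ ↔ Dec V (g σ g⁻¹)`, `Ine` similarly.
`TyR` for `V_g`, with `r, u`: `av c i j = Cf D (g r) i j * (u' i j)^q`, `u' i j = g (u (g⁻¹ i) (g⁻¹ j))` (`σ (Cf D r i j) = Cf D (σ r) (σ i) (σ j)` for all
`σ ∈ G`), and the `σ ∈ Δ` with `σ c = c`, i.e. `g⁻¹ σ g ∈ H`, fix `g r` and `σ (u' i j) = u' (σ i) (σ j)`.  `TyU` for `V_g`: `av c i j = (u' i j)^q`, `u' i j` fixed by the `τ ∈ I`
with `τ c = c`.  Let `X_R` be the set of the `c` for which the first description is possible (for some `g` with `c = g H`; it is stable under `Δ`), `X_U` the complement; for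
`c ∈ X_U` the second is possible.
`l ∣ D`: the orbit of `c = g H ∈ X_U` under `I` has `[I : I ∩ g H g⁻¹] = [InG V_g : InG V_g ∩ H] = H.relIndex (InG V_g)` elements, divisible by `q`.  `S_PRR` for `X_R`, `S_PRU` for
`X_U`: `∏_c av c i j = ∏_r Cf D r i j ^ M r * (U i j)^q`, `∑ M r = #X_R ≡ d mod q`; raise to the power `d'`.
`l ∤ D`: `X_R` is empty (`TyR` includes `l ∣ D`), so `∏_c av c i j = (U i j)^q` with `U i j` fixed by `I`, `val (U i j) = k` is an integer by `S_INV` (2). -/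
def S_NOR : Prop := ∀ (f : ℤ[X]) (q B : ℕ) (A : Type) [Field A] [Algebra ℚ A] [IsAlgClosure ℚ A],
  Gd A f q B → q.Prime → ∀ (N : IntermediateField ℚ A) [FiniteDimensional ℚ N],
  ¬ q ∣ Module.finrank ℚ N → ∀ (D : ℤ), D ≠ 0 → ∀ a : Rt f A → Rt f A → A,
  KSys f q A D B N.fixingSubgroup a → ∃ b : Rt f A → Rt f A → A, BSys f q A D B b

end Pool.Agent.Q51.SZ
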