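import Pool.Agent.Q51.ZC.Fin2
import Pool.Agent.Q51.SZ.Stm2
import Pool.Agent.Q150.SX.Plc
import Pool.Agent.Q239.EL.DESC

/-! # Project SZ: from the arithmetic data to the data of the sieve -/

set_option autoImplicit false

namespace Pool.Agent.Q51.SZ

open Polynomial NumberField IsDedekindDomain Finset
open Pool.Agent.Y157.PS (Dec Ine IsU)
open Pool.Agent.Q51.EL (Abv N1 pr Setup Gf)
open Pool.Agent.Q51.SE (Parq Zc Alg Point)
open Pool.Agent.Q51.ZC (VecP Rel dg ab Deg1 Data SP Pf fq Large)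
open Pool.Agent.Q239.EL (bl bl_prime bl_abv prime_unique)

section PV

variable {A : Type} [Field A] {q l : ℕ} {V : ValuationSubring A}

lemma PV.mul (hl : (l : A) ≠ 0) {a b : A} {e e' : ℤ} (ha : PV q V l a e) (hb : PV q V l b e') :
    PV q V l (a * b) (e + e') := by
  obtain ⟨m, hm⟩ := ha
  obtain ⟨m', hm'⟩ := hb
  refine ⟨m + m', ?_⟩
  have h1 : a * b / (l : A) ^ (e + e' + q * (m + m')) =
      (a / (l : A) ^ (e + q * m)) * (b / (l : A) ^ (e' + q * m')) := by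
    rw [div_mul_div_comm, ← zpow_add₀ hl]
    congr 2
    ring
  rw [h1]
  exact hm.mul hm'

lemma PV.inv (hl : (l : A) ≠ 0) {a : A} {e : ℤ} (ha : PV q V l a e) :
    PV q V l a⁻¹ (-e) := by
  obtain ⟨m, hm⟩ := ha
  refine ⟨-m, ?_⟩
  have h1 : a⁻¹ / (l : A) ^ (-e + q * (-m)) = (a / (l : A) ^ (e + q * m))⁻¹ := by
    rw [inv_div, div_eq_mul_inv a⁻¹, ← zpow_neg, mul_comm a⁻¹, div_eq_mul_inv]
    congr 2
    ring
  rw [h1]
  exact hm.inv

lemma PV.div (hl : (l : A) ≠ 0) {a b : A} {e e' : ℤ} (ha : PV q V l a e) (hb : PV q V l b e') :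
    PV q V l (a / b) (e - e') := by
  rw [div_eq_mul_inv, sub_eq_add_neg]
  exact ha.mul hl (hb.inv hl)

end PV

lemma At.mono {A : Type} [Field A] {B B' l : ℕ} {V : ValuationSubring A} (h : B ∣ B')
    (hV : At A B' l V) : At A B l V := ⟨hV.pr, fun hh => hV.nd (hh.trans h), hV.ab⟩

lemma Gd.mono {A : Type} [Field A] {f : ℤ[X]} {q B B' : ℕ} (hd : Gd A f q B) (h : B ∣ B')
    (h0 : B' ≠ 0) : Gd A f q B' where
  ne := h0
  nq l hl hlB := hd.nq l hl fun hh => hlB (hh.trans h)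
  lc l V hV := hd.lc l V (hV.mono h)
  int l V hV := hd.int l V (hV.mono h)
  dist l V hV := hd.dist l V (hV.mono h)
  crd := hd.crd

lemma BSys.mono {A : Type} [Field A] [Algebra ℚ A] {f : ℤ[X]} {q B B' : ℕ} {D : ℤ}
    {b : Rt f A → Rt f A → A} (hb : BSys f q A D B b) (h : B ∣ B') : BSys f q A D B' b where
  nz := hb.nz
  eqv := hb.eqv
  out l V hV := hb.out l V (hV.mono h)
  inn l V hV := hb.inn l V (hV.mono h)

lemma not_mem_of_ndvd {L : Type} [Field L] [NumberField L] {v : HeightOneSpectrum (𝓞 L)} {l B : ℕ}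
    (hl : l.Prime) (hv : Abv v l) (hB : ¬ l ∣ B) : (B : 𝓞 L) ∉ v.asIdeal := by
  intro h
  have h2 : IsCoprime (l : ℤ) (B : ℤ) :=
    Nat.isCoprime_iff_coprime.mpr ((Nat.Prime.coprime_iff_not_dvd hl).mpr hB)
  obtain ⟨u, w, huw⟩ := h2
  have h3 : ((u : 𝓞 L) * (l : 𝓞 L) + (w : 𝓞 L) * (B : 𝓞 L)) = 1 := by
    exact_mod_cast congrArg (Int.cast : ℤ → 𝓞 L) huw
  apply v.isPrime.ne_top
  rw [Ideal.eq_top_iff_one, ← h3]
  exact Ideal.add_mem _ (Ideal.mul_mem_left _ _ hv) (Ideal.mul_mem_left _ _ h)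

section types

variable {f : ℤ[X]} {L : Type} [Field L] [NumberField L] {A : Type} [Field A] [Algebra ℚ A]
  [IsAlgClosure ℚ A]

/-- The data of the sieve for the twists with arithmetic data of one type. -/
theorem types (hPLC : S_PLC) (hFIB : S_FIB) (hDEL : S_DEL) (hVLB : S_VLB) (hTYP : S_TYP)
    (hRTV : S_RTV) (hREL : S_REL) {θ : L} (hset : Setup f L θ) (hodd : Odd f.natDegree) {q : ℕ}
    (hq : q.Prime) (hqf : q ∣ f.natDegree) (J : Rt f A → (L →ₐ[ℚ] A)) (hJ : ∀ i, J i θ = i.1) :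
    ∃ B0 : ℕ, B0 ≠ 0 ∧ ∀ B : ℕ, B0 ∣ B → B ≠ 0 → Gd A f q B →
    (∀ l : ℕ, l.Prime → ¬ l ∣ B → Squarefree (Ideal.span {(l : 𝓞 L)})) →
    ∀ (P : Set ℕ) (T : Set ℤ), (∀ D ∈ T, Squarefree D) →
    (∀ D ∈ T, ∀ l : ℕ, l.Prime → (l : ℤ) ∣ D → ¬ l ∣ B → l ∈ P ∧ ∃ r : ℤ, (l : ℤ) ∣ f.eval r) →
    (∀ D ∈ T, ∃ b, BSys f q A D B b) →
    ∃ (N : ℕ) (κ : ℤ → Fin N) (δ : ℤ → L), ∀ y, Data L q B P {D ∈ T | κ D = y} δ := by
  classical
  obtain ⟨B1, hB1, hrel⟩ := hREL f L θ hset hodd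
  obtain ⟨B2, hB2, hdel⟩ := hDEL L q hq.ne_zero
  refine ⟨B1 * B2, mul_ne_zero hB1 hB2, fun B hB0 hBne hgd hram P T hsq hroot hb => ?_⟩
  have hB1' : B1 ∣ B := (Dvd.intro _ rfl).trans hB0
  have hB2' : B2 ∣ B := (Dvd.intro_left _ rfl).trans hB0
  have : CharZero A := algebraRat.charZero A
  have hnd : ∀ l : ℕ, l.Prime → (l : A) ≠ 0 := fun l hl => Nat.cast_ne_zero.mpr hl.ne_zero
  -- the action on the embeddings
  have hJs : ∀ (σ : A ≃ₐ[ℚ] A) (i : Rt f A) (z : L), σ (J i z) = J (σ • i) z := by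
    intro σ i z
    obtain ⟨d, rfl⟩ := Pool.Agent.Q239.EL.theta_surj hset z
    have h1 : J i (aeval θ d) = aeval i.1 d := by rw [← aeval_algHom_apply, hJ]
    have h2 : J (σ • i) (aeval θ d) = aeval (σ • i).1 d := by rw [← aeval_algHom_apply, hJ]
    rw [h1, h2, smul_val]
    exact (aeval_algHom_apply (σ : A →ₐ[ℚ] A) i.1 d).symm
  -- valuation rings
  have hV0 : ∀ l : ℕ, ∃ V : ValuationSubring A, l.Prime → (l : A) ∈ V.nonunits := by
    intro l
    by_cases hl : l.Prime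
    · obtain ⟨V, φ, h1, -⟩ := Pool.Agent.Q150.SX.plc A l hl
      exact ⟨V, fun _ => h1⟩
    · exact ⟨⊤, fun h => absurd h hl⟩
  choose V hV using hV0
  have hAt : ∀ l : ℕ, l.Prime → ¬ l ∣ B → At A B l (V l) := fun l hl hlB => ⟨hl, hlB, hV l hl⟩
  obtain ⟨i00⟩ : Nonempty (Rt f A) := by
    have h1 : 0 < (rts f A).card := by rw [hgd.crd]; exact hodd.pos
    obtain ⟨e, he⟩ := Finset.card_pos.mp h1
    exact ⟨⟨e, he⟩⟩
  have hv00 : Nonempty (HeightOneSpectrum (𝓞 L)) := by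
    obtain ⟨l, hl1, hl2⟩ := Nat.exists_infinite_primes (B + 1)
    have hlB : ¬ l ∣ B := fun h => by
      have := Nat.le_of_dvd (Nat.pos_of_ne_zero hBne) h
      omega
    obtain ⟨π, -⟩ := hPLC f L θ hset q B A hgd hram J hJ l (V l) (hAt l hl2 hlB)
    exact ⟨π i00⟩
  obtain ⟨v00⟩ := hv00
  have hπ0 : ∀ l : ℕ, ∃ π : Rt f A → HeightOneSpectrum (𝓞 L), l.Prime → ¬ l ∣ B →
      Plc J l (V l) π := by
    intro l
    by_cases hl : l.Prime ∧ ¬ l ∣ B
    · obtain ⟨π, hπ⟩ := hPLC f L θ hset q B A hgd hram J hJ l (V l) (hAt l hl.1 hl.2)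
      exact ⟨π, fun _ _ => hπ⟩
    · exact ⟨fun _ => v00, fun h1 h2 => absurd ⟨h1, h2⟩ hl⟩
  choose π hπ using hπ0
  -- the data
  have hb' : ∀ D : ℤ, ∃ b : Rt f A → Rt f A → A, D ∈ T → BSys f q A D B b := by
    intro D
    by_cases hD : D ∈ T
    · obtain ⟨b, h⟩ := hb D hD
      exact ⟨b, fun _ => h⟩
    · exact ⟨fun _ _ => 0, fun h => absurd h hD⟩
  choose b hbs using hb'
  have hMU : ∀ (D : ℤ) (l : ℕ), ∃ (M : Rt f A → ℤ) (U : Rt f A → Rt f A → A),
      D ∈ T → l.Prime → ¬ l ∣ B → (l : ℤ) ∣ D →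
      (∀ σ : A ≃ₐ[ℚ] A, Dec (V l) σ → ∀ i, M (σ • i) = M i) ∧ (q : ℤ) ∣ ∑ i, M i - 1 ∧
      (∀ i j, U i j ≠ 0) ∧
      (∀ σ : A ≃ₐ[ℚ] A, Dec (V l) σ → ∀ i j, σ (U i j) = U (σ • i) (σ • j)) ∧
      ∀ i j, b D i j = (∏ r, Cf f D r i j ^ M r) * U i j ^ q := by
    intro D l
    by_cases h : D ∈ T ∧ l.Prime ∧ ¬ l ∣ B ∧ (l : ℤ) ∣ D
    · obtain ⟨M, U, hh⟩ := (hbs D h.1).inn l (V l) (hAt l h.2.1 h.2.2.1) h.2.2.2
      exact ⟨M, U, fun _ _ _ _ => hh⟩
    · exact ⟨fun _ => 0, fun _ _ => 0, fun h1 h2 h3 h4 => absurd ⟨h1, h2, h3, h4⟩ h⟩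
  choose M U hMU using hMU
  have hsq2 : ∀ D ∈ T, ∀ l : ℕ, l.Prime → ¬ (l : ℤ) ^ 2 ∣ D := by
    intro D hD l hl h2
    rw [pow_two] at h2
    have h3 := hsq D hD _ h2
    rw [Int.isUnit_iff_natAbs_eq, Int.natAbs_natCast] at h3
    exact hl.one_lt.ne' h3
  -- the vectors of valuations
  let Mv : ℤ → HeightOneSpectrum (𝓞 L) → ℤ := fun D v =>
    if (¬ bl v ∣ B ∧ (bl v : ℤ) ∣ D) then
      (if h : ∃ i, π (bl v) i = v then M D (bl v) h.choose else 0) else 0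
  have hbl : ∀ {v : HeightOneSpectrum (𝓞 L)} {l : ℕ}, l.Prime → Abv v l → bl v = l :=
    fun hl hv => prime_unique (bl_prime _) hl (bl_abv _) hv
  have hMv1 : ∀ D ∈ T, ∀ l : ℕ, l.Prime → ¬ l ∣ B → (l : ℤ) ∣ D → ∀ i,
      Mv D (π l i) = M D l i := by
    intro D hD l hl hlB hlD i
    have hp := hπ l hl hlB
    have h1 : bl (π l i) = l := hbl hl (hp.abv i)
    have hex : ∃ i', π (bl (π l i)) i' = π l i := ⟨i, by rw [h1]⟩
    obtain ⟨i0, h3, h2⟩ : ∃ i0, π (bl (π l i)) i0 = π l i ∧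
        Mv D (π l i) = M D (bl (π l i)) i0 := by
      refine ⟨hex.choose, hex.choose_spec, ?_⟩
      change (if (¬ bl (π l i) ∣ B ∧ (bl (π l i) : ℤ) ∣ D) then _ else _) = _
      rw [if_pos (by rw [h1]; exact ⟨hlB, hlD⟩), dif_pos hex]
    rw [h2, h1]
    rw [h1] at h3
    obtain ⟨σ, hσ, hσi⟩ := hp.tr _ _ h3
    rw [← hσi]
    exact ((hMU D l hD hl hlB hlD).1 σ hσ _).symm
  have hMv0 : ∀ (D : ℤ) (l : ℕ), l.Prime → ¬ (l : ℤ) ∣ D → ∀ v : HeightOneSpectrum (𝓞 L),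
      Abv v l → Mv D v = 0 := by
    intro D l hl hlD v hv
    change (if (¬ bl v ∣ B ∧ (bl v : ℤ) ∣ D) then _ else _) = _
    rw [if_neg]
    rw [hbl hl hv]
    exact fun h => hlD h.2
  have hfin : ∀ D ∈ T, {v | Mv D v ≠ 0}.Finite := by
    intro D hD
    have hD0 : D ≠ 0 := (hsq D hD).ne_zero
    refine ((D.natAbs.primeFactors.finite_toSet).biUnion (t := fun l =>
      {v : HeightOneSpectrum (𝓞 L) | Abv v l ∧ l.Prime}) fun l hl => ?_).subset ?_
    · by_cases hp : l.Prime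
      · exact (Pool.Agent.Q239.EL.ab_finite (L := L) hp.ne_zero).subset fun v hv => hv.1
      · exact Set.Finite.subset Set.finite_empty fun v hv => absurd hv.2 hp
    · intro v hv
      have h1 : (bl v : ℤ) ∣ D := by
        by_contra h
        exact hv (hMv0 D (bl v) (bl_prime v) h v (bl_abv v))
      refine Set.mem_biUnion (x := bl v) ?_ ⟨bl_abv v, bl_prime v⟩
      exact Finset.mem_coe.mpr (Nat.mem_primeFactors.mpr
        ⟨bl_prime v, Int.natCast_dvd.mp h1, Int.natAbs_ne_zero.mpr hD0⟩)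
  -- the elements
  have hδ0 : ∀ D : ℤ, ∃ δ : L, δ ≠ 0 ∧ (D ∈ T → ∀ v : HeightOneSpectrum (𝓞 L),
      (B2 : 𝓞 L) ∉ v.asIdeal → Parq q v δ (Mv D v)) := by
    intro D
    by_cases hD : D ∈ T
    · obtain ⟨δ, h1, h2⟩ := hdel (Mv D) (hfin D hD)
      exact ⟨δ, h1, fun _ => h2⟩
    · exact ⟨1, one_ne_zero, fun h => absurd h hD⟩
  choose δ hδn hδ using hδ0
  have hpar : ∀ D ∈ T, ∀ l : ℕ, l.Prime → ¬ l ∣ B → ∀ v : HeightOneSpectrum (𝓞 L), Abv v l →
      Parq q v (δ D) (Mv D v) := fun D hD l hl hlB v hv =>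
    hδ D hD v (not_mem_of_ndvd hl hv fun h => hlB (h.trans hB2'))
  have hpv : ∀ D ∈ T, ∀ l : ℕ, l.Prime → ¬ l ∣ B → ∀ i,
      PV q (V l) l (J i (δ D)) (Mv D (π l i)) := by
    intro D hD l hl hlB i
    obtain ⟨k, hk⟩ := hpar D hD l hl hlB (π l i) ((hπ l hl hlB).abv i)
    exact ⟨k, ((hπ l hl hlB).val i (δ D) _).mp hk⟩
  -- the types
  let t : ℤ → Rt f A → Rt f A → A := fun D i j => b D i j / (J i (δ D) / J j (δ D))
  have hJn : ∀ D i, J i (δ D) ≠ 0 := fun D i => (map_ne_zero (J i)).mpr (hδn D)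
  have hty : ∀ D ∈ T, Ty q B (t D) := by
    intro D hD
    refine ⟨fun i j => div_ne_zero ((hbs D hD).nz i j) (div_ne_zero (hJn D i) (hJn D j)),
      fun σ i j => ?_, fun l hl hlB => ⟨V l, hV l hl, fun i j => ?_⟩⟩
    · change σ (b D i j / (J i (δ D) / J j (δ D))) = _
      rw [map_div₀, map_div₀, hJs, hJs, (hbs D hD).eqv]
    · have h1 := (hpv D hD l hl hlB i).div (hnd l hl) (hpv D hD l hl hlB j)
      by_cases hlD : (l : ℤ) ∣ D
      · obtain ⟨m1, m2, m3, m4, m5⟩ := hMU D l hD hl hlB hlD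
        have h2 := hVLB f q B A hgd hq l (V l) (hAt l hl hlB) D hlD (hsq2 D hD l hl) (M D l) _
          m3 m4 i j
        rw [← m5 i j] at h2
        have h3 := h2.div (hnd l hl) h1
        rw [hMv1 D hD l hl hlB hlD, hMv1 D hD l hl hlB hlD, sub_self] at h3
        exact h3
      · have h2 := (hbs D hD).out l (V l) (hAt l hl hlB) hlD i j
        have h3 := h2.div (hnd l hl) h1
        rw [hMv0 D l hl hlD _ ((hπ l hl hlB).abv i), hMv0 D l hl hlD _ ((hπ l hl hlB).abv j),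
          sub_self, sub_self] at h3
        exact h3
  obtain ⟨N, ty, hN⟩ := hTYP f q B hq.two_le hBne A
  refine ⟨N, fun D => ty (t D), δ, fun y => ?_⟩
  have hdeg : ∀ D ∈ T, ∀ l : ℕ, l.Prime → ¬ l ∣ B → (l : ℤ) ∣ D →
      Deg1 q l (Mv D) := by
    intro D hD l hl hlB hlD
    have hp := hπ l hl hlB
    have hfib := hFIB f L θ hset q B A hgd hram J hJ l (V l) (hAt l hl hlB) (π l) hp
    have h1 : ∑ v ∈ ab L l, (dg l v : ℤ) * Mv D v = ∑ i, M D l i := by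
      have hab : ∀ v, v ∈ ab L l ↔ Abv v l := by
        intro v
        unfold ab
        rw [dif_pos (Pool.Agent.Q239.EL.ab_finite (L := L) hl.ne_zero), Set.Finite.mem_toFinset]
        rfl
      have h2 : ∑ i, M D l i = ∑ v ∈ ab L l, ∑ i ∈ univ.filter (fun i => π l i = v), M D l i := by
        refine (Finset.sum_fiberwise_of_maps_to (fun i _ => ?_) _).symm
        exact (hab _).mpr (hp.abv i)
      rw [h2]
      refine Finset.sum_congr rfl fun v hv => ?_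
      have h3 : ∀ i ∈ univ.filter (fun i => π l i = v), M D l i = Mv D v := by
        intro i hi
        rw [← (Finset.mem_filter.mp hi).2, hMv1 D hD l hl hlB hlD]
      rw [Finset.sum_congr rfl h3, Finset.sum_const, (hfib v ((hab v).mp hv)).2, nsmul_eq_mul]
    unfold Deg1
    rw [h1]
    exact (hMU D l hD hl hlB hlD).2.1
  exact
    { sq := fun D hD => hsq D hD.1
      nz := fun D _ => hδn D
      mem := fun D hD l hl hlD hlB => (hroot D hD.1 l hl hlD hlB).1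
      out := fun D hD l hl hlB hlD => ⟨0, fun v hv => by
        have h1 := hpar D hD.1 l hl hlB v hv
        rwa [hMv0 D l hl hlD v hv] at h1⟩
      inn := fun D hD l hl hlB hlD => ⟨Mv D, fun v hv => hpar D hD.1 l hl hlB v hv,
        hdeg D hD.1 l hl hlB hlD⟩
      rel := fun D hD D' hD' l hl hlB hlD hlD' M0 hM hM' => by
        obtain ⟨m1, m2, m3, m4, m5⟩ := hMU D l hD.1 hl hlB hlD
        obtain ⟨m1', m2', m3', m4', m5'⟩ := hMU D' l hD'.1 hl hlB hlD'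
        obtain ⟨e, he1, he2⟩ := hN (t D) (t D') (hty D hD.1) (hty D' hD'.1)
          ((show ty (t D) = y from hD.2).trans (show ty (t D') = y from hD'.2).symm)
        obtain ⟨j0, hj0⟩ := hRTV f q B A hgd l (V l) (hAt l hl hlB) (hroot D hD.1 l hl hlD hlB).2
        refine hrel q B hB1' hq hqf A hgd J hJ l (V l) (hAt l hl hlB) (π l) (hπ l hl hlB) j0 hj0
          D D' hlD (hsq2 D hD.1 l hl) hlD' (hsq2 D' hD'.1 l hl) (M D l) (M D' l)
          (fun i j => U D l i j * e i j / U D' l i j) (fun σ hσ i => ⟨m1 σ hσ i, m1' σ hσ i⟩)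
          (fun i j => div_ne_zero (mul_ne_zero (m3 i j) (he1 i j).1) (m3' i j)) ?_ (δ D) (δ D')
          (hδn D) (hδn D') (fun i => ?_) (fun i => ?_) (fun i j => ?_) M0 hM hM'
        · intro σ hσ i j
          rw [map_div₀, map_mul, m4 σ hσ, m4' σ hσ, he2]
        · have h1 := hpv D hD.1 l hl hlB i
          rwa [hMv1 D hD.1 l hl hlB hlD] at h1
        · have h1 := hpv D' hD'.1 l hl hlB i
          rwa [hMv1 D' hD'.1 l hl hlB hlD'] at h1
        · have h1 := m5 i j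
          have h2 := m5' i j
          have h3 := (he1 i j).2
          have k1 := hJn D i
          have k2 := hJn D j
          have k3 := hJn D' i
          have k4 := hJn D' j
          have k5 := m3' i j
          have k6 := m3 i j
          change b D' i j / (J i (δ D') / J j (δ D')) = b D i j / (J i (δ D) / J j (δ D)) * e i j ^ q
            at h3
          rw [h1, h2] at h3
          have k7 : J i (δ D') / J j (δ D') ≠ 0 := div_ne_zero k3 k4
          have k8 : J i (δ D) / J j (δ D) ≠ 0 := div_ne_zero k1 k2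
          rw [div_eq_iff k7] at h3
          have k9 : U D' l i j ^ q ≠ 0 := pow_ne_zero _ k5
          have h4 : (∏ r, Cf f D' r i j ^ M D' l r) =
              (∏ r, Cf f D r i j ^ M D l r) * U D l i j ^ q / (J i (δ D) / J j (δ D)) *
                e i j ^ q * (J i (δ D') / J j (δ D')) / U D' l i j ^ q := by
            rw [eq_div_iff k9]
            exact h3
          rw [h4, div_pow, mul_pow]
          field_simp }

end types

end Pool.Agent.Q51.SZ
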