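import Pool.Agent.Q51.SZ.Asm1

/-! # Project SZ: the upper bound for the twists with arithmetic data -/

set_option autoImplicit false

namespace Pool.Agent.Q51.SZ

open Polynomial NumberField IsDedekindDomain Finset
open Pool.Agent.Y157.PS (Dec Ine IsU)
open Pool.Agent.Q51.EL (Abv N1 pr Setup Gf)
open Pool.Agent.Q51.SE (Parq Zc Alg Point)
open Pool.Agent.Q51.ZC (VecP Rel dg ab Deg1 Data SP Pf fq Large fq_lead fq_deg fq_ne fq_irr fq_eval
  t_lrg t_eng t_n1r t_epr)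

/-- the soluble twists with arithmetic data -/
def TB (a b : ℤ) (n m q : ℕ) (A : Type) [Field A] [Algebra ℚ A] (B : ℕ) : Set ℤ :=
  {D | Squarefree D ∧ (∀ (p : ℕ) [Fact p.Prime], Nonempty (Point (fq a b n) m D ℚ_[p])) ∧
    ∃ bb : Rt (fq a b q) A → Rt (fq a b q) A → A, BSys (fq a b q) q A D B bb}

theorem bs_bound (hGD : S_GD) (hPLC : S_PLC) (hFIB : S_FIB) (hDEL : S_DEL) (hVLB : S_VLB)
    (hTYP : S_TYP) (hRTV : S_RTV) (hREL : S_REL) {a b : ℤ} {n m q : ℕ} (hn : Odd n) (hm : 2 ≤ m)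
    (hmn : m ∣ n) (hq : q.Prime) (hqm : q ∣ m)
    (hirr : Irreducible ((fq a b n).map (Int.castRingHom ℚ))) (A : Type) [Field A] [Algebra ℚ A]
    [IsAlgClosure ℚ A] {B0 : ℕ} (hB0 : B0 ≠ 0) :
    ∃ c C : ℝ, 0 < c ∧ ∀ X : ℝ, 3 ≤ X →
      (({D ∈ TB a b n m q A B0 | (D.natAbs : ℝ) ≤ X}.ncard : ℕ) : ℝ) ≤
        C * X / Real.log X * Real.exp (SP (Pf (fq a b n)) X) * Real.log X ^ (-c) := by
  classical
  have hn0 : 0 < n := hn.pos
  have hn2 : 2 ≤ n := hm.trans (Nat.le_of_dvd hn0 hmn)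
  have hqn : q ∣ n := hqm.trans hmn
  have hqodd : Odd q := hn.of_dvd_nat hqn
  have hq3 : 3 ≤ q := by
    have h2 := hq.two_le
    have h3 : q ≠ 2 := by
      rintro rfl
      exact (Nat.not_even_iff_odd.mpr hn) (even_iff_two_dvd.mpr hqn)
    omega
  obtain ⟨ha, hb⟩ := fq_ne hn2 hirr
  have hf := fq_irr hn0 hqn hirr
  set f : ℤ[X] := fq a b q with hfdef
  have hfdeg : f.natDegree = q := fq_deg ha b hq.pos
  have : Fact (Irreducible (f.map (Int.castRingHom ℚ))) := ⟨hf⟩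
  set L := AdjoinRoot (f.map (Int.castRingHom ℚ)) with hL
  have hfd : FiniteDimensional ℚ L := PowerBasis.finite (AdjoinRoot.powerBasis hf.ne_zero)
  have : CharZero L := algebraRat.charZero L
  have hNF : NumberField L := { to_charZero := inferInstance, to_finiteDimensional := hfd }
  set θ : L := AdjoinRoot.root (f.map (Int.castRingHom ℚ)) with hθ
  have hnd : (f.map (Int.castRingHom ℚ)).natDegree = f.natDegree :=
    natDegree_map_eq_of_injective (Int.castRingHom ℚ).injective_int f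
  have hset : Setup f L θ := by
    refine ⟨hf, ?_, ?_⟩
    · have h1 := AdjoinRoot.eval₂_root (f.map (Int.castRingHom ℚ))
      rw [eval₂_map] at h1
      rw [aeval_def, ← h1]
      congr 1
    · rw [(AdjoinRoot.powerBasis hf.ne_zero).finrank, AdjoinRoot.powerBasis_dim, hnd]
  have hqf : q ∣ f.natDegree := by rw [hfdeg]
  -- the embeddings
  have hJ0 : ∀ i : Rt f A, ∃ j : L →ₐ[ℚ] A, j θ = i.1 := by
    intro i
    have h1 : (f.map (Int.castRingHom A)).IsRoot i.1 := (mem_rts.mp i.2).2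
    have h2 : aeval i.1 (f.map (Int.castRingHom ℚ)) = 0 := by
      rw [aeval_def, eval₂_map]
      have h3 : (algebraMap ℚ A).comp (Int.castRingHom ℚ) = Int.castRingHom A :=
        RingHom.ext_int _ _
      rw [h3, ← eval_map]
      exact h1
    refine ⟨AdjoinRoot.liftAlgHom (f.map (Int.castRingHom ℚ)) (Algebra.ofId ℚ A) i.1 h2, ?_⟩
    exact AdjoinRoot.liftAlgHom_root _ _ _ _
  choose J hJ using hJ0
  obtain ⟨B5, hB5, htypes⟩ := types hPLC hFIB hDEL hVLB hTYP hRTV hREL hset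
    (by rw [hfdeg]; exact hqodd) hq hqf J hJ
  obtain ⟨B1, hB1, -, hgood⟩ := hGD f hf q (B0 * B5) hq.ne_zero (mul_ne_zero hB0 hB5)
  obtain ⟨B2, hB2, hram⟩ := (Pool.Agent.Q91.EL.ram L).1
  obtain ⟨B3, hB3, hzc⟩ := Pool.Agent.Q51.SE.zeta f q hq (by
    have h := Pool.Agent.Q51.SE.fermat_cond hq 1 ha hb
    rw [pow_one] at h
    exact h) L θ hset
  obtain ⟨B4, hB4, hn1⟩ := t_n1r f L θ hset
  have : IsAlgClosed A := IsAlgClosure.isAlgClosed ℚ
  have : CharZero A := algebraRat.charZero A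
  have hB1n : B1 ≠ 0 := (hgood A).ne
  set B : ℕ := B1 * B2 * B3 * B4 * a.natAbs with hB
  have hBn : B ≠ 0 := mul_ne_zero (mul_ne_zero (mul_ne_zero (mul_ne_zero hB1n hB2) hB3) hB4)
    (Int.natAbs_ne_zero.mpr ha)
  have d1 : B1 ∣ B := ⟨B2 * B3 * B4 * a.natAbs, by rw [hB]; ring⟩
  have d2 : B2 ∣ B := ⟨B1 * B3 * B4 * a.natAbs, by rw [hB]; ring⟩
  have d3 : B3 ∣ B := ⟨B1 * B2 * B4 * a.natAbs, by rw [hB]; ring⟩
  have d4 : B4 ∣ B := ⟨B1 * B2 * B3 * a.natAbs, by rw [hB]; ring⟩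
  have d5 : a.natAbs ∣ B := ⟨B1 * B2 * B3 * B4, by rw [hB]; ring⟩
  have hG : Pool.Agent.Q51.ZC.Good L q B :=
    { pr := hq
      ge := hq3
      deg := by rw [hset.deg, hfdeg]
      ne := hBn
      ram := fun l hl hlB => hram l hl (fun h => hlB (h.trans d2))
      zc := fun l hl hlB => hzc l hl (fun h => hlB (h.trans d3)) }
  obtain ⟨R, c1, C1, hc1, hR, hSP⟩ := t_lrg a b n q hn hq hqn ha hb B hBn
  have hLg : Large L q B (Pf (fq a b n)) R :=
    { sub := fun p hp => ⟨(hR p hp).1, (hR p hp).2.2.2⟩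
      pr := fun p hp => (hR p hp).1
      nd := fun p hp => (hR p hp).2.1
      one := fun p hp => by
        obtain ⟨h1, h2, h3, r, hr⟩ := hR p hp
        refine hn1 p h1 (fun h => h2 (h.trans d4)) ⟨r ^ (n / q), ?_⟩
        rw [hfdef, fq_eval, ← pow_mul, Nat.div_mul_cancel hqn]
        rwa [fq_eval] at hr
      ord := fun p hp => (hR p hp).2.2.1 }
  obtain ⟨c, C, hc, heng⟩ := t_eng L q B (Pf (fq a b n)) R hG hLg c1 C1 hc1 hSP
  have hB0B : B0 ∣ B := ((Dvd.intro _ rfl).trans hB1).trans d1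
  have hB5B : B5 ∣ B := ((Dvd.intro_left _ rfl).trans hB1).trans d1
  have hsq : ∀ D ∈ TB a b n m q A B0, ∀ l : ℕ, l.Prime → ¬ (l : ℤ) ^ 2 ∣ D := by
    intro D hD l hl h2
    rw [pow_two] at h2
    have h3 := hD.1 _ h2
    rw [Int.isUnit_iff_natAbs_eq, Int.natAbs_natCast] at h3
    exact hl.one_lt.ne' h3
  obtain ⟨N, κ, δ, hdata⟩ := htypes B hB5B hBn ((hgood A).mono d1 hBn)
    (fun l hl hlB => hG.ram l hl hlB) (Pf (fq a b n)) (TB a b n m q A B0) (fun D hD => hD.1)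
    (fun D hD l hl hlD hlB => by
      have : Fact l.Prime := ⟨hl⟩
      obtain ⟨r, hr⟩ := t_epr (fq a b n) m D l hm (by rw [fq_deg ha b hn0]; exact hmn) (by
        rw [fq_lead ha b hn0]
        exact fun h => hlB ((Int.natCast_dvd.mp h).trans d5)) hlD
        (hsq D hD l hl) (hD.2.1 l)
      refine ⟨⟨hl, r, hr⟩, r ^ (n / q), ?_⟩
      rw [hfdef, fq_eval, ← pow_mul, Nat.div_mul_cancel hqn]
      rwa [fq_eval] at hr)
    (fun D hD => by
      obtain ⟨bb, hbb⟩ := hD.2.2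
      exact ⟨bb, hbb.mono hB0B⟩)
  refine ⟨c, N * C, hc, fun X hX => ?_⟩
  have hfin : ∀ T : Set ℤ, {D ∈ T | (D.natAbs : ℝ) ≤ X}.Finite := by
    intro T
    refine (Set.finite_Icc (-(⌊X⌋₊ : ℤ)) ⌊X⌋₊).subset fun D hD => ?_
    have h1 : D.natAbs ≤ ⌊X⌋₊ := Nat.le_floor hD.2
    rw [Set.mem_Icc]
    omega
  have hcov : {D ∈ TB a b n m q A B0 | (D.natAbs : ℝ) ≤ X} ⊆
      ⋃ y ∈ (univ : Finset (Fin N)), {D ∈ {D ∈ TB a b n m q A B0 | κ D = y} |
        (D.natAbs : ℝ) ≤ X} := by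
    intro D hD
    simp only [Set.mem_iUnion]
    exact ⟨κ D, mem_univ _, ⟨hD.1, rfl⟩, hD.2⟩
  have h1 : {D ∈ TB a b n m q A B0 | (D.natAbs : ℝ) ≤ X}.ncard ≤
      ∑ y : Fin N, {D ∈ {D ∈ TB a b n m q A B0 | κ D = y} | (D.natAbs : ℝ) ≤ X}.ncard := by
    refine (Set.ncard_le_ncard hcov ?_).trans ?_
    · exact Set.Finite.biUnion (Finset.finite_toSet _) fun y _ => hfin _
    · exact Finset.set_ncard_biUnion_le _ _
  calc (({D ∈ TB a b n m q A B0 | (D.natAbs : ℝ) ≤ X}.ncard : ℕ) : ℝ)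
      ≤ ((∑ y : Fin N, {D ∈ {D ∈ TB a b n m q A B0 | κ D = y} |
          (D.natAbs : ℝ) ≤ X}.ncard : ℕ) : ℝ) := by exact_mod_cast h1
    _ = ∑ y : Fin N, (({D ∈ {D ∈ TB a b n m q A B0 | κ D = y} |
          (D.natAbs : ℝ) ≤ X}.ncard : ℕ) : ℝ) := by push_cast; rfl
    _ ≤ ∑ y : Fin N, C * X / Real.log X * Real.exp (SP (Pf (fq a b n)) X) *
          Real.log X ^ (-c) := Finset.sum_le_sum fun y _ => heng _ _ (hdata y) X hX
    _ = N * C * X / Real.log X * Real.exp (SP (Pf (fq a b n)) X) * Real.log X ^ (-c) := by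
        rw [Finset.sum_const, Finset.card_univ, Fintype.card_fin, nsmul_eq_mul]
        ring

end Pool.Agent.Q51.SZ
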