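import Pool.Agent.Q51.SZ.Asm2
import Pool.Agent.Q51.SZ.Stm3
import Pool.Agent.Q51.ZC.KZer4
import Pool.Agent.W623.SecE.Glb
import Pool.Agent.Y157.PS.Ind2
import Pool.Agent.Y157.PS.Fin

/-! # Project SZ: from sections to the arithmetic data over `ℚ` -/

set_option autoImplicit false

namespace Pool.Agent.Q51.SZ

open Polynomial NumberField IsDedekindDomain Finset FF
open Pool.Agent.Y157.PS (Dec Ine IsU geomPro)
open Pool.Agent.Q51.SE (Point)
open Pool.Agent.Q51.ZC (fq fq_deg fq_ne fq_irr CPoint)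

/-- There is a section over `K` of the geometrically pro-`q` fundamental group of `D y ^ q = a x ^ q + b`, or of
`Gal(M/F)`, for a field `M` that contains the maximal geometrically pro-`q` unramified extension of `F`. -/
def HasPro (a b : ℤ) (q : ℕ) (D : ℤ) (K : Type) [Field K] : Prop :=
  ∃ (F Ω : Type) (_ : Field F) (_ : Field Ω) (_ : Algebra K F) (_ : Algebra F Ω) (_ : Algebra K Ω)
    (_ : IsScalarTower K F Ω) (_ : IsAlgClosed Ω) (_ : Algebra.IsAlgebraic F Ω) (x y : F)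
    (M : IntermediateField F Ω)
    (S : (algebraicClosure K Ω ≃ₐ[K] algebraicClosure K Ω) →* (M ≃ₐ[F] M)),
    Transcendental K x ∧ (D : F) * y ^ q = a * x ^ q + b ∧
    IntermediateField.adjoin K {x, y} = (⊤ : IntermediateField K F) ∧ geomPro q K F Ω ≤ M ∧
    Continuous S ∧ ∀ σ (c : algebraicClosure K Ω) (z : M), (z : Ω) = (c : Ω) →
      (S σ z : Ω) = (σ c : Ω)

/-- There is a section over `K` of the fundamental group of an open subcurve of `D y ^ m = a x ^ n + b`, or of a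
smooth curve (or variety) over `K` that dominates it. -/
def HasSec (a b : ℤ) (n m : ℕ) (D : ℤ) (K : Type) [Field K] : Prop :=
  ∃ (F Ω : Type) (_ : Field F) (_ : Field Ω) (_ : Algebra K F) (_ : Algebra F Ω) (_ : Algebra K Ω)
    (_ : IsScalarTower K F Ω) (_ : IsAlgClosed Ω) (_ : Algebra.IsAlgebraic F Ω)
    (U : Set (ValuationSubring F)) (x y : F), (∀ O ∈ U, ∀ c : K, algebraMap K F c ∈ O) ∧
    (D : F) * y ^ m = a * x ^ n + b ∧ Nonempty (Pool.Agent.W620.SC.GSection K F Ω U)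

lemma aeval_fq {a b : ℤ} {q : ℕ} {F : Type} [Field F] (x : F) :
    aeval x (fq a b q) = (a : F) * x ^ q + b := by
  unfold fq
  simp

section

variable {a b : ℤ} {n m q : ℕ}

theorem glo_bsys (hKSY : S_KSY) (hNOR : S_NOR) {f : ℤ[X]} (hq : q.Prime) {A : Type} [Field A]
    [Algebra ℚ A] [IsAlgClosure ℚ A] {B : ℕ} (hgd : Gd A f q B) {D : ℤ} (hD : D ≠ 0) {K : Type}
    [Field K] [NumberField K] (hK : ¬ q ∣ Module.finrank ℚ K)
    (h : ∃ (N : IntermediateField ℚ A) (M : Type) (_ : Field M) (S : SecH f q A M N.fixingSubgroup),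
      FiniteDimensional ℚ N ∧ Module.finrank ℚ N = Module.finrank ℚ K ∧ S.Good D B) :
    ∃ bb : Rt f A → Rt f A → A, BSys f q A D B bb := by
  obtain ⟨N, M, _, S, hN, hfin, hS⟩ := h
  obtain ⟨c, hc⟩ := hKSY f q B A hgd hq N M S D hD hS
  exact hNOR f q B A hgd hq N (by rw [hfin]; exact hK) D hD c hc

theorem pro_bsys (hGLO0 : S_GLO0) (hKSY : S_KSY) (hNOR : S_NOR) (hq : q.Prime) (hq3 : 3 ≤ q)
    (ha : a ≠ 0) {A : Type} [Field A]
    [Algebra ℚ A] [IsAlgClosure ℚ A] {B : ℕ}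
    (hgd : ∀ (E : Type) [Field E] [IsAlgClosed E] [CharZero E], Gd E (fq a b q) q B) {D : ℤ}
    (hD : Squarefree D) {K : Type}
    [Field K] [NumberField K] (hK : ¬ q ∣ Module.finrank ℚ K) (h : HasPro a b q D K) :
    ∃ bb : Rt (fq a b q) A → Rt (fq a b q) A → A, BSys (fq a b q) q A D B bb := by
  have : Fact q.Prime := ⟨hq⟩
  obtain ⟨F, Ω, _, _, _, _, _, _, _, _, x, y, M, S, hx, hxy, hF, hM, hS, hcompat⟩ := h
  have hac : IsAlgClosed A := IsAlgClosure.isAlgClosed ℚ
  have hch : CharZero A := algebraRat.charZero A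
  have hdeg : (fq a b q).natDegree = q := fq_deg ha b hq.pos
  have hchF : CharZero F := charZero_of_injective_algebraMap (algebraMap K F).injective
  have hDK : (D : K) ≠ 0 := Int.cast_ne_zero.mpr hD.ne_zero
  have hxy' : algebraMap K F (D : K) * y ^ q = aeval x ((fq a b q).map (Int.castRingHom K)) := by
    rw [map_intCast, hxy, ← aeval_fq]
    rw [aeval_def, aeval_def, eval₂_map]
    congr 1
    exact RingHom.ext_int _ _
  have halg := Pool.Agent.Y157.PS.alg_of_eqn hq.pos ((fq a b q).map (Int.castRingHom K)) (D : K) hDK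
    x y hxy' hF
  obtain ⟨T, hTc, hT⟩ := Pool.Agent.Y157.PS.a_ind2 q K F Ω x hx halg M hM _ S hS
  have hTcompat : ∀ σ (c : algebraicClosure K Ω) (z : geomPro q K F Ω), (z : Ω) = (c : Ω) →
      (T σ z : Ω) = (σ c : Ω) := by
    intro σ c z hz
    have h1 : (z : Ω) ∈ M := hM z.2
    rw [hT σ ⟨(z : Ω), h1⟩ z rfl]
    exact hcompat σ c _ hz
  refine glo_bsys hKSY hNOR hq (hgd A) hD.ne_zero hK ?_
  exact hGLO0 (fq a b q) q B hq (by rw [hdeg]) (by rw [hdeg]; exact hq3) hgd A D hD K F Ω x y hx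
    (by rw [hxy, aeval_fq]) hF T hTc hTcompat

theorem sec_bsys (hGLO : S_GLO) (hKSY : S_KSY) (hNOR : S_NOR) (hq : q.Prime) (hq3 : 3 ≤ q)
    (ha : a ≠ 0) (hn : 0 < n) (hqm : q ∣ m) (hqn : q ∣ n) (hm : 0 < m) {A : Type} [Field A]
    [Algebra ℚ A] [IsAlgClosure ℚ A] {B : ℕ}
    (hgd : ∀ (E : Type) [Field E] [IsAlgClosed E] [CharZero E], Gd E (fq a b q) q B) {D : ℤ}
    (hD : Squarefree D) {K : Type}
    [Field K] [NumberField K] (hK : ¬ q ∣ Module.finrank ℚ K) (h : HasSec a b n m D K) :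
    Nonempty (CPoint a b n m D K) ∨
    ∃ bb : Rt (fq a b q) A → Rt (fq a b q) A → A, BSys (fq a b q) q A D B bb := by
  obtain ⟨F, Ω, _, _, _, _, _, _, _, _, U, x, y, hU, hxy, ⟨G⟩⟩ := h
  have hac : IsAlgClosed A := IsAlgClosure.isAlgClosed ℚ
  have hch : CharZero A := algebraRat.charZero A
  have hdeg : (fq a b q).natDegree = q := fq_deg ha b hq.pos
  have hchF : CharZero F := charZero_of_injective_algebraMap (algebraMap K F).injective
  have hDF : (D : F) ≠ 0 := Int.cast_ne_zero.mpr hD.ne_zero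
  by_cases hx : Transcendental K x
  · right
    refine glo_bsys hKSY hNOR hq (hgd A) hD.ne_zero hK ?_
    have hnq : 0 < n / q := Nat.div_pos (Nat.le_of_dvd hn hqn) hq.pos
    refine hGLO (fq a b q) q B hq (by rw [hdeg]) (by rw [hdeg]; exact hq3) hgd A D hD K F Ω U hU G
      (x ^ (n / q)) (y ^ (m / q)) (hx.pow hnq) ?_
    rw [aeval_fq, ← pow_mul, ← pow_mul, Nat.div_mul_cancel hqm, Nat.div_mul_cancel hqn, hxy]
  · left
    rw [Transcendental, not_not] at hx
    obtain ⟨x', rfl⟩ := Pool.Agent.W623.SecE.alg_mem_base G x hx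
    have h1 : y ^ m = algebraMap K F ((a * x' ^ n + b) / D) := by
      rw [map_div₀, eq_div_iff ((_root_.map_ne_zero _).2 (Int.cast_ne_zero.mpr hD.ne_zero)), map_intCast,
        map_add, map_mul, map_pow, map_intCast, map_intCast, ← hxy]
      ring
    have hy : IsAlgebraic K y := by
      apply IsAlgebraic.of_pow hm
      rw [h1]
      exact isAlgebraic_algebraMap _
    obtain ⟨y', rfl⟩ := Pool.Agent.W623.SecE.alg_mem_base G y hy
    refine ⟨⟨x', 1, y', Or.inr one_ne_zero, (algebraMap K F).injective ?_⟩⟩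
    simp only [map_mul, map_pow, map_add, map_intCast, one_pow, mul_one]
    exact hxy

end

end Pool.Agent.Q51.SZ
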