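import Pool.Agent.Q51.SZ.Asm3
import Pool.Agent.Q51.ZC.KZer5

/-! # Project SZ: the main theorem from the statements of the jobs -/

set_option autoImplicit false

namespace Pool.Agent.Q51.SZ

open Polynomial NumberField IsDedekindDomain Finset FF
open Pool.Agent.Y157.PS (Dec Ine IsU geomPro)
open Pool.Agent.Q51.SE (Point count)
open Pool.Agent.Q51.EL (pr Gf)
open Pool.Agent.Q51.ZC (fq fq_deg fq_ne fq_irr fq_map CPoint Soluble numLocSoluble numPoints HasPoint
  HasOrthogonalPoint fin_set count_mono sp_eq soluble_iff lower main_points SP Pf sumRoots sumRoots_eq)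

/-- Over some number field `K` of a degree prime to `q` there is a point, or a section of the fundamental group of
an open subcurve of `C_D` or of a smooth curve that dominates it, or a section of the geometrically pro-`q`
fundamental group of `D y ^ q = a x ^ q + b`. -/
def HasAny (a b : ℤ) (n m : ℕ) (D : ℤ) (q : ℕ) : Prop :=
  ∃ (K : Type) (_ : Field K) (_ : NumberField K), ¬ q ∣ Module.finrank ℚ K ∧
    (Nonempty (CPoint a b n m D K) ∨ HasSec a b n m D K ∨ HasPro a b q D K)

/-- the number of the soluble twists with sections -/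
noncomputable def numAny (a b : ℤ) (n m : ℕ) (X : ℝ) : ℝ :=
  count (fun D => Soluble a b n m D ∧ ∃ q : ℕ, q.Prime ∧ q ∣ m ∧ HasAny a b n m D q) X

section

variable {a b : ℤ} {n m : ℕ}

lemma one_le_log {X : ℝ} (hX : 3 ≤ X) : 1 ≤ Real.log X := by
  have h1 : Real.exp 1 ≤ 3 := by linarith [Real.exp_one_lt_d9]
  calc (1 : ℝ) = Real.log (Real.exp 1) := (Real.log_exp 1).symm
    _ ≤ Real.log X := Real.log_le_log (Real.exp_pos 1) (h1.trans hX)

lemma exists_closure : ∃ (A : Type) (_ : Field A) (_ : Algebra ℚ A), IsAlgClosure ℚ A :=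
  ⟨AlgebraicClosure ℚ, inferInstance, AlgebraicClosure.instAlgebra ℚ, inferInstance⟩

/-- the bound for a finite set of primes `q` -/
lemma any_set (hGD : S_GD) (hPLC : S_PLC) (hFIB : S_FIB) (hDEL : S_DEL) (hVLB : S_VLB)
    (hTYP : S_TYP) (hRTV : S_RTV) (hREL : S_REL) (hGLO0 : S_GLO0) (hGLO : S_GLO) (hKSY : S_KSY)
    (hNOR : S_NOR) (hn : Odd n) (hm : 1 < m) (hmn : m ∣ n)
    (hirr : Irreducible ((fq a b n).map (Int.castRingHom ℚ))) (s : Finset ℕ)
    (hs : s ⊆ m.primeFactors) : ∃ c C : ℝ, 0 < c ∧ 0 ≤ C ∧ ∀ X : ℝ, 3 ≤ X →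
      (count (fun D => Soluble a b n m D ∧ ¬ HasPoint a b n m D ∧ ∃ q ∈ s, HasAny a b n m D q) X : ℝ) ≤
      C * X / Real.log X * Real.exp (Gf (fq a b n) X) * Real.log X ^ (-c) := by
  classical
  obtain ⟨A, _, _, _⟩ := exists_closure
  have hn0 := hn.pos
  obtain ⟨ha, hb⟩ := fq_ne (by
    have := Nat.le_of_dvd hn0 hmn
    omega) hirr
  induction s using Finset.induction_on with
  | empty =>
    refine ⟨1, 0, one_pos, le_rfl, fun X hX => ?_⟩
    have h0 : count (fun D => Soluble a b n m D ∧ ¬ HasPoint a b n m D ∧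
        ∃ q ∈ (∅ : Finset ℕ), HasAny a b n m D q) X = 0 := by
      unfold count
      have : {D : ℤ | Squarefree D ∧ |(D : ℝ)| ≤ X ∧ Soluble a b n m D ∧ ¬ HasPoint a b n m D ∧
          ∃ q ∈ (∅ : Finset ℕ), HasAny a b n m D q} = ∅ := by
        ext D
        simp
      rw [this, Set.ncard_empty]
    rw [h0]
    simp
  | insert q s hq ih =>
    obtain ⟨c1, C1, hc1, hC1, h1⟩ := ih (fun x hx => hs (mem_insert_of_mem hx))
    have hqm : q ∈ m.primeFactors := hs (mem_insert_self _ _)
    have hqp : q.Prime := Nat.prime_of_mem_primeFactors hqm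
    have hqd : q ∣ m := Nat.dvd_of_mem_primeFactors hqm
    have hqn : q ∣ n := hqd.trans hmn
    have hqodd : Odd q := hn.of_dvd_nat hqn
    have hq3 : 3 ≤ q := by
      have h2 := hqp.two_le
      have h3 : q ≠ 2 := by
        rintro rfl
        exact (Nat.not_even_iff_odd.mpr hn) (even_iff_two_dvd.mpr hqn)
      omega
    have hf := fq_irr hn0 hqn hirr
    obtain ⟨B, -, -, hgd⟩ := hGD (fq a b q) hf q 1 hqp.ne_zero one_ne_zero
    have hBne : B ≠ 0 := (hgd (AlgebraicClosure ℚ)).ne
    obtain ⟨c2, C2, hc2, h2⟩ := bs_bound hGD hPLC hFIB hDEL hVLB hTYP hRTV hREL hn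
      (by omega : 2 ≤ m) hmn hqp hqd hirr A hBne
    refine ⟨min c1 c2, C1 + max C2 0, lt_min hc1 hc2, add_nonneg hC1 (le_max_right _ _),
      fun X hX => ?_⟩
    have hl := one_le_log hX
    have hX0 : 0 < X := by linarith
    have hsub : {D : ℤ | Squarefree D ∧ |(D : ℝ)| ≤ X ∧ Soluble a b n m D ∧ ¬ HasPoint a b n m D ∧
        ∃ q' ∈ insert q s, HasAny a b n m D q'} ⊆
        {D : ℤ | Squarefree D ∧ |(D : ℝ)| ≤ X ∧ Soluble a b n m D ∧ ¬ HasPoint a b n m D ∧
        ∃ q' ∈ s, HasAny a b n m D q'} ∪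
        {D ∈ TB a b n m q A B | (D.natAbs : ℝ) ≤ X} := by
      rintro D ⟨e1, e2, e3, e4, q', hq', hany⟩
      rcases mem_insert.mp hq' with h | h
      · subst h
        refine Or.inr ⟨⟨e1, ?_, ?_⟩, ?_⟩
        · intro p hp
          have h3 := ((soluble_iff ha hn0).mpr e3).2 p
          obtain ⟨x, w, y, h4, h5⟩ := h3
          exact ⟨⟨x, w, y, h4, h5⟩⟩
        · obtain ⟨K, iK, iK2, hK, hK2⟩ := hany
          rcases hK2 with h | h | h
          · exact absurd (⟨q', hqp, hqd, K, iK, iK2, hK, h⟩ : HasPoint a b n m D) e4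
          · rcases sec_bsys hGLO hKSY hNOR hqp hq3 ha hn0 hqd hqn (by omega)
              (A := A) hgd e1 hK h with h | h
            · exact absurd (⟨q', hqp, hqd, K, iK, iK2, hK, h⟩ : HasPoint a b n m D) e4
            · exact h
          · exact pro_bsys hGLO0 hKSY hNOR hqp hq3 ha (A := A) hgd e1 hK h
        · rw [Nat.cast_natAbs, Int.cast_abs]; exact e2
      · exact Or.inl ⟨e1, e2, e3, e4, q', h, hany⟩
    have hfin2 : {D ∈ TB a b n m q A B | (D.natAbs : ℝ) ≤ X}.Finite := by
      refine (fin_set X (fun _ => True)).subset ?_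
      rintro D ⟨hD, hDX⟩
      refine ⟨hD.1, ?_, trivial⟩
      rw [Nat.cast_natAbs, Int.cast_abs] at hDX
      exact hDX
    have h3 : (count (fun D => Soluble a b n m D ∧ ¬ HasPoint a b n m D ∧
        ∃ q' ∈ insert q s, HasAny a b n m D q') X : ℝ) ≤
        (count (fun D => Soluble a b n m D ∧ ¬ HasPoint a b n m D ∧
          ∃ q' ∈ s, HasAny a b n m D q') X : ℝ) +
        (({D ∈ TB a b n m q A B | (D.natAbs : ℝ) ≤ X}.ncard : ℕ) : ℝ) := by
      unfold count
      have h4 := Set.ncard_le_ncard hsub ((fin_set X _).union hfin2)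
      have h5 := h4.trans (Set.ncard_union_le _ _)
      exact_mod_cast h5
    have h4 := h1 X hX
    have h5 := h2 X hX
    rw [sp_eq] at h5
    have h6 : Real.log X ^ (-c1) ≤ Real.log X ^ (-(min c1 c2)) :=
      Real.rpow_le_rpow_of_exponent_le hl (neg_le_neg (min_le_left _ _))
    have h7 : Real.log X ^ (-c2) ≤ Real.log X ^ (-(min c1 c2)) :=
      Real.rpow_le_rpow_of_exponent_le hl (neg_le_neg (min_le_right _ _))
    have hl0 : 0 < Real.log X := by linarith
    have h8 : C1 * X / Real.log X * Real.exp (Gf (fq a b n) X) * Real.log X ^ (-c1) ≤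
        C1 * X / Real.log X * Real.exp (Gf (fq a b n) X) * Real.log X ^ (-(min c1 c2)) :=
      mul_le_mul_of_nonneg_left h6 (by positivity)
    have h9 : C2 * X / Real.log X * Real.exp (Gf (fq a b n) X) * Real.log X ^ (-c2) ≤
        max C2 0 * X / Real.log X * Real.exp (Gf (fq a b n) X) * Real.log X ^ (-(min c1 c2)) := by
      have h10 : C2 * (X / Real.log X * Real.exp (Gf (fq a b n) X) * Real.log X ^ (-c2)) ≤
          max C2 0 * (X / Real.log X * Real.exp (Gf (fq a b n) X) * Real.log X ^ (-c2)) :=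
        mul_le_mul_of_nonneg_right (le_max_left _ _) (by positivity)
      have h11 : max C2 0 * (X / Real.log X * Real.exp (Gf (fq a b n) X) * Real.log X ^ (-c2)) ≤
          max C2 0 * (X / Real.log X * Real.exp (Gf (fq a b n) X) *
            Real.log X ^ (-(min c1 c2))) :=
        mul_le_mul_of_nonneg_left (mul_le_mul_of_nonneg_left h7 (by positivity))
          (le_max_right _ _)
      have e1 : C2 * X / Real.log X * Real.exp (Gf (fq a b n) X) * Real.log X ^ (-c2) =
          C2 * (X / Real.log X * Real.exp (Gf (fq a b n) X) * Real.log X ^ (-c2)) := by ring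
      have e2 : max C2 0 * X / Real.log X * Real.exp (Gf (fq a b n) X) *
          Real.log X ^ (-(min c1 c2)) = max C2 0 * (X / Real.log X * Real.exp (Gf (fq a b n) X) *
            Real.log X ^ (-(min c1 c2))) := by ring
      rw [e1, e2]
      exact h10.trans h11
    calc _ ≤ _ := h3
      _ ≤ C1 * X / Real.log X * Real.exp (Gf (fq a b n) X) * Real.log X ^ (-(min c1 c2)) +
          max C2 0 * X / Real.log X * Real.exp (Gf (fq a b n) X) * Real.log X ^ (-(min c1 c2)) :=
          add_le_add (h4.trans h8) (h5.trans h9)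
      _ = _ := by ring

/-- from the upper bound to the proportion -/
lemma proportion (hn : Odd n) (hm : 1 < m) (hmn : m ∣ n)
    (hirr : Irreducible ((fq a b n).map (Int.castRingHom ℚ))) (P : ℤ → Prop)
    (hP : ∀ D : ℤ, P D → Soluble a b n m D) {c C : ℝ} (hc : 0 < c) (hC : 0 ≤ C)
    (hbX : ∀ X : ℝ, 3 ≤ X → (count P X : ℝ) ≤
      C * X / Real.log X * Real.exp (Gf (fq a b n) X) * Real.log X ^ (-c)) :
    ∃ C' : ℝ, 0 ≤ C' ∧ ∀ X : ℝ, 3 ≤ X →
      (count P X : ℝ) ≤ C' * Real.log X ^ (-c) * numLocSoluble a b n m X := by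
  classical
  have hle : ∀ X : ℝ, (count P X : ℝ) ≤ numLocSoluble a b n m X := by
    intro X
    unfold numLocSoluble
    exact_mod_cast count_mono (P := P) (Q := fun D => Soluble a b n m D) (fun D _ h => hP D h) X
  by_cases hex : ∃ D : ℤ, Squarefree D ∧ Soluble a b n m D
  · obtain ⟨c0, X0, hc0, hl⟩ := lower hn hm hmn hirr hex
    set X1 : ℝ := max X0 3 with hX1
    have hlX1 : 1 ≤ Real.log X1 := one_le_log (le_max_right _ _)
    refine ⟨C / c0 + Real.log X1 ^ c, by positivity, fun X hX => ?_⟩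
    have hE0 : 0 ≤ numLocSoluble a b n m X := Nat.cast_nonneg _
    have hlog : 1 ≤ Real.log X := one_le_log hX
    have hlog0 : 0 < Real.log X := by linarith
    have hp : 0 < Real.log X ^ (-c) := Real.rpow_pos_of_pos hlog0 _
    rcases le_total X1 X with h1 | h1
    · have h2 := hl X ((le_max_left _ _).trans h1)
      have h3 := hbX X hX
      have h4 : C * X / Real.log X * Real.exp (Gf (fq a b n) X) * Real.log X ^ (-c) =
          (C / c0) * Real.log X ^ (-c) * (c0 * X / Real.log X * Real.exp (Gf (fq a b n) X)) := by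
        field_simp
      rw [h4] at h3
      refine h3.trans ?_
      have h5 : (C / c0) * Real.log X ^ (-c) * (c0 * X / Real.log X *
          Real.exp (Gf (fq a b n) X)) ≤
          (C / c0) * Real.log X ^ (-c) * numLocSoluble a b n m X :=
        mul_le_mul_of_nonneg_left h2 (by positivity)
      refine h5.trans ?_
      refine mul_le_mul_of_nonneg_right (mul_le_mul_of_nonneg_right ?_ hp.le) hE0
      have : 0 ≤ Real.log X1 ^ c := Real.rpow_nonneg (by linarith) _
      linarith
    · have h2 : 1 ≤ Real.log X1 ^ c * Real.log X ^ (-c) := by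
        rw [Real.rpow_neg hlog0.le, ← div_eq_mul_inv, one_le_div (Real.rpow_pos_of_pos hlog0 _)]
        exact Real.rpow_le_rpow hlog0.le (Real.log_le_log (by linarith) h1) hc.le
      have h3 : 0 ≤ C / c0 * Real.log X ^ (-c) := by positivity
      calc (count P X : ℝ) ≤ 1 * numLocSoluble a b n m X := by
            rw [one_mul]; exact hle X
        _ ≤ (C / c0 + Real.log X1 ^ c) * Real.log X ^ (-c) * numLocSoluble a b n m X := by
            refine mul_le_mul_of_nonneg_right ?_ hE0
            rw [add_mul]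
            linarith
  · refine ⟨0, le_rfl, fun X _ => ?_⟩
    have h0 : count P X = 0 := by
      unfold count
      have : {D : ℤ | Squarefree D ∧ |(D : ℝ)| ≤ X ∧ P D} = ∅ := by
        ext D
        simp only [Set.mem_ofPred_eq, Set.mem_empty_iff_false, iff_false]
        rintro ⟨h1, -, h2⟩
        exact hex ⟨D, h1, hP D h2⟩
      rw [this, Set.ncard_empty]
    rw [h0]
    simp

theorem main_sz (hGD : S_GD) (hPLC : S_PLC) (hFIB : S_FIB) (hDEL : S_DEL) (hVLB : S_VLB)
    (hTYP : S_TYP) (hRTV : S_RTV) (hREL : S_REL) (hGLO0 : S_GLO0) (hGLO : S_GLO) (hKSY : S_KSY)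
    (hNOR : S_NOR) (hn : Odd n) (hm : 1 < m) (hmn : m ∣ n)
    (hirr : Irreducible (C (a : ℚ) * X ^ n + C (b : ℚ))) :
    ∃ δ C : ℝ, 0 < δ ∧ ∀ X : ℝ, 3 ≤ X →
      numAny a b n m X ≤ C * Real.log X ^ (-δ) * numLocSoluble a b n m X := by
  classical
  obtain ⟨δ1, C1, hδ1, h1⟩ := main_points hn hm hmn hirr
  rw [← fq_map] at hirr
  have hm0 : m ≠ 0 := by omega
  obtain ⟨c, C, hc, hC, hb⟩ := any_set hGD hPLC hFIB hDEL hVLB hTYP hRTV hREL hGLO0 hGLO hKSY hNOR
    hn hm hmn hirr m.primeFactors le_rfl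
  obtain ⟨C2, hC2, h2⟩ := proportion hn hm hmn hirr _ (fun D h => h.1) hc hC hb
  refine ⟨min δ1 c, max C1 0 + C2, lt_min hδ1 hc, fun X hX => ?_⟩
  have hlog : 1 ≤ Real.log X := one_le_log hX
  have hlog0 : 0 < Real.log X := by linarith
  have hE0 : 0 ≤ numLocSoluble a b n m X := Nat.cast_nonneg _
  have h3 : numAny a b n m X ≤ numPoints a b n m X +
      (count (fun D => Soluble a b n m D ∧ ¬ HasPoint a b n m D ∧
        ∃ q ∈ m.primeFactors, HasAny a b n m D q) X : ℝ) := by
    unfold numAny numPoints count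
    have hsub : {D : ℤ | Squarefree D ∧ |(D : ℝ)| ≤ X ∧ Soluble a b n m D ∧
        ∃ q : ℕ, q.Prime ∧ q ∣ m ∧ HasAny a b n m D q} ⊆
        {D : ℤ | Squarefree D ∧ |(D : ℝ)| ≤ X ∧ Soluble a b n m D ∧
          (HasPoint a b n m D ∨ HasOrthogonalPoint a b n m D)} ∪
        {D : ℤ | Squarefree D ∧ |(D : ℝ)| ≤ X ∧ Soluble a b n m D ∧ ¬ HasPoint a b n m D ∧
          ∃ q ∈ m.primeFactors, HasAny a b n m D q} := by
      rintro D ⟨e1, e2, e3, q, hq, hqm, hany⟩
      by_cases hP : HasPoint a b n m D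
      · exact Or.inl ⟨e1, e2, e3, Or.inl hP⟩
      · exact Or.inr ⟨e1, e2, e3, hP, q, Nat.mem_primeFactors.mpr ⟨hq, hqm, hm0⟩, hany⟩
    have h4 := Set.ncard_le_ncard hsub ((fin_set X _).union (fin_set X _))
    have h5 := h4.trans (Set.ncard_union_le _ _)
    exact_mod_cast h5
  have e1 : Real.log X ^ (-δ1) ≤ Real.log X ^ (-(min δ1 c)) :=
    Real.rpow_le_rpow_of_exponent_le hlog (neg_le_neg (min_le_left _ _))
  have e2 : Real.log X ^ (-c) ≤ Real.log X ^ (-(min δ1 c)) :=
    Real.rpow_le_rpow_of_exponent_le hlog (neg_le_neg (min_le_right _ _))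
  have e3 : numPoints a b n m X ≤ max C1 0 * Real.log X ^ (-(min δ1 c)) *
      numLocSoluble a b n m X := by
    refine (h1 X hX).trans (mul_le_mul_of_nonneg_right ?_ hE0)
    exact (mul_le_mul_of_nonneg_right (le_max_left C1 0) (Real.rpow_nonneg hlog0.le _)).trans
      (mul_le_mul_of_nonneg_left e1 (le_max_right _ _))
  have e4 : (count (fun D => Soluble a b n m D ∧ ¬ HasPoint a b n m D ∧
      ∃ q ∈ m.primeFactors, HasAny a b n m D q) X : ℝ) ≤
      C2 * Real.log X ^ (-(min δ1 c)) * numLocSoluble a b n m X :=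
    (h2 X hX).trans (mul_le_mul_of_nonneg_right (mul_le_mul_of_nonneg_left e2 hC2) hE0)
  calc numAny a b n m X ≤ _ := h3
    _ ≤ _ := add_le_add e3 e4
    _ = _ := by ring

end

end Pool.Agent.Q51.SZ
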