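import Pool.Agent.Q51.ZC.Stm2
import Pool.Agent.Y157.PS.Stm6
import Pool.Agent.Y157.PS.Loc2
import Pool.Agent.W620.SC.Def

/-!
# Project SZ (helper51): sections of Fermat twists over number fields of degree prime to `q`, definitions

`n` odd, `1 < m ∣ n`, `a X ^ n + b` irreducible over `ℚ`, `C_D : D y ^ m = a x ^ n + b w ^ n`.

GOAL.  For all but a proportion `O((log X) ^ (-δ))` of the squarefree `D`, `|D| ≤ X`, for which `C_D` is
everywhere locally soluble: for ALL number fields `K` whose degree is prime to some prime factor `q` of `m` the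
curve `(C_D)_K` and all curves over `K` which dominate an open subcurve have no section of `π_1` over `K`.

The curve maps to `D y ^ q = f(x)`, `f = a X ^ q + b`.  `A` is an algebraic closure of `ℚ`, `H` the subgroup of
`Gal(A/ℚ)` of a number field `K`.  This file: definitions.
-/

set_option autoImplicit false

namespace Pool.Agent.Q51.SZ

open Polynomial NumberField IsDedekindDomain Finset
open Pool.Agent.Y157.PS (Dec Ine IsU)

section roots

variable (f : ℤ[X]) (A : Type) [Field A]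

open Classical in
/-- the set of the zeros of `f` in `A` -/
noncomputable def rts : Finset A := (f.map (Int.castRingHom A)).roots.toFinset

/-- the type of the zeros of `f` in `A` -/
abbrev Rt : Type := {e : A // e ∈ rts f A}

variable {f A}

theorem mem_rts {e : A} : e ∈ rts f A ↔
    f.map (Int.castRingHom A) ≠ 0 ∧ (f.map (Int.castRingHom A)).IsRoot e := by
  classical
  unfold rts
  rw [Multiset.mem_toFinset, mem_roots']

variable [Algebra ℚ A]

theorem aut_mem (σ : A ≃ₐ[ℚ] A) {e : A} (h : e ∈ rts f A) : σ e ∈ rts f A := by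
  rw [mem_rts] at h ⊢
  refine ⟨h.1, ?_⟩
  have h2 : (f.map (Int.castRingHom A)).eval (σ e) = σ ((f.map (Int.castRingHom A)).eval e) := by
    rw [eval_map, eval_map]
    have := hom_eval₂ f (Int.castRingHom A) (σ : A →+* A) e
    rw [RingHom.coe_coe] at this
    rw [this]
    congr 1
    exact RingHom.ext_int _ _
  have h1 := h.2
  unfold IsRoot at h1 ⊢
  rw [h2, h1, map_zero]

/-- the action of `Gal(A/ℚ)` on the zeros of `f` -/
noncomputable instance : MulAction (A ≃ₐ[ℚ] A) (Rt f A) where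
  smul σ i := ⟨σ i.1, aut_mem σ i.2⟩
  one_smul _ := Subtype.ext rfl
  mul_smul _ _ _ := Subtype.ext rfl

theorem smul_val (σ : A ≃ₐ[ℚ] A) (i : Rt f A) : (σ • i).1 = σ i.1 := rfl

end roots

section W

variable (f : ℤ[X]) {A : Type} [Field A]

open Classical in
/-- the value of `r - x` at the branch point `(i, 0)` of the curve `D y ^ q = f(x)`, up to `q`-th powers -/
noncomputable def Wf (D : ℤ) (r i : Rt f A) : A :=
  if i = r then (D : A) / ((f.leadingCoeff : A) * ∏ k ∈ univ.erase r, (r.1 - k.1)) else r.1 - i.1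

/-- the value of `(x - i) / (x - j)` at the branch point `(r, 0)`, up to `q`-th powers -/
noncomputable def Cf (D : ℤ) (r i j : Rt f A) : A := Wf f D r i / Wf f D r j

end W

section groups

variable {A : Type} [Field A] [Algebra ℚ A]

/-- the decomposition group of `V` -/
def DcG (V : ValuationSubring A) : Subgroup (A ≃ₐ[ℚ] A) where
  carrier := {σ | Dec V σ}
  mul_mem' h h' := Dec.mul h h'
  one_mem' := fun _ => Iff.rfl
  inv_mem' h := Dec.inv h

/-- the inertia group of `V` -/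
def InG (V : ValuationSubring A) : Subgroup (A ≃ₐ[ℚ] A) where
  carrier := {σ | Ine V σ}
  mul_mem' h h' := Ine.mul h h'
  one_mem' := Ine.one
  inv_mem' h := Ine.inv h

end groups

section field

variable {A : Type} [Field A]

/-- the value of `a` at `V` is `l ^ (e + q m)` for some `m` -/
def PV (q : ℕ) (V : ValuationSubring A) (l : ℕ) (a : A) (e : ℤ) : Prop :=
  ∃ m : ℤ, IsU V (a / (l : A) ^ (e + q * m))

variable (A) in
/-- `V` lies above the prime `l`, which does not divide `B` -/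
structure At (B l : ℕ) (V : ValuationSubring A) : Prop where
  pr : l.Prime
  nd : ¬ l ∣ B
  ab : (l : A) ∈ V.nonunits

variable (A) in
/-- all primes not dividing `B` are good -/
structure Gd (f : ℤ[X]) (q B : ℕ) : Prop where
  ne : B ≠ 0
  nq : ∀ l : ℕ, l.Prime → ¬ l ∣ B → l ≠ q
  lc : ∀ (l : ℕ) (V : ValuationSubring A), At A B l V → IsU V (f.leadingCoeff : A)
  int : ∀ (l : ℕ) (V : ValuationSubring A), At A B l V → ∀ i : Rt f A, i.1 ∈ V
  dist : ∀ (l : ℕ) (V : ValuationSubring A), At A B l V → ∀ i j : Rt f A, i ≠ j →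
    IsU V (i.1 - j.1)
  crd : (rts f A).card = f.natDegree

end field

variable (f : ℤ[X]) (q : ℕ) (A : Type) [Field A] [Algebra ℚ A]

/-- The arithmetic data over `ℚ`: `b i j` is a Kummer class of `(x - i) / (x - j)`. -/
structure BSys (D : ℤ) (B : ℕ) (b : Rt f A → Rt f A → A) : Prop where
  nz : ∀ i j, b i j ≠ 0
  eqv : ∀ (σ : A ≃ₐ[ℚ] A) (i j : Rt f A), σ (b i j) = b (σ • i) (σ • j)
  out : ∀ (l : ℕ) (V : ValuationSubring A), At A B l V → ¬ (l : ℤ) ∣ D → ∀ i j, PV q V l (b i j) 0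
  inn : ∀ (l : ℕ) (V : ValuationSubring A), At A B l V → (l : ℤ) ∣ D →
    ∃ (M : Rt f A → ℤ) (U : Rt f A → Rt f A → A),
      (∀ σ : A ≃ₐ[ℚ] A, Dec V σ → ∀ i, M (σ • i) = M i) ∧ (q : ℤ) ∣ ∑ i, M i - 1 ∧
      (∀ i j, U i j ≠ 0) ∧
      (∀ σ : A ≃ₐ[ℚ] A, Dec V σ → ∀ i j, σ (U i j) = U (σ • i) (σ • j)) ∧
      ∀ i j, b i j = (∏ r, Cf f D r i j ^ M r) * U i j ^ q

variable {A} in
/-- The Kummer classes `a i j`, over the field of `H`, are unramified `q`-th powers at `V`, and the ramification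
index of this field is divisible by `q` if `l ∣ D`. -/
def TyU (D : ℤ) (l : ℕ) (V : ValuationSubring A) (H : Subgroup (A ≃ₐ[ℚ] A))
    (a : Rt f A → Rt f A → A) : Prop :=
  (∃ u : Rt f A → Rt f A → A, ∀ i j, a i j = u i j ^ q ∧ ∀ σ ∈ H, Ine V σ → σ (u i j) = u i j) ∧
    ((l : ℤ) ∣ D → q ∣ H.relIndex (InG V))

variable {A} in
/-- The Kummer classes `a i j`, over the field of `H`, are at `V` those of a branch point. -/
def TyR (D : ℤ) (l : ℕ) (V : ValuationSubring A) (H : Subgroup (A ≃ₐ[ℚ] A))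
    (a : Rt f A → Rt f A → A) : Prop :=
  (l : ℤ) ∣ D ∧ ∃ r : Rt f A, (∀ σ ∈ H, Dec V σ → σ • r = r) ∧ ∃ u : Rt f A → Rt f A → A,
    ∀ i j, a i j = Cf f D r i j * u i j ^ q ∧
      ∀ σ ∈ H, Dec V σ → σ (u i j) = u (σ • i) (σ • j)

/-- The arithmetic data over the field of `H`. -/
structure KSys (D : ℤ) (B : ℕ) (H : Subgroup (A ≃ₐ[ℚ] A)) (a : Rt f A → Rt f A → A) : Prop where
  nz : ∀ i j, a i j ≠ 0
  eqv : ∀ σ ∈ H, ∀ i j : Rt f A, σ (a i j) = a (σ • i) (σ • j)
  loc : ∀ (l : ℕ) (V : ValuationSubring A), At A B l V → TyU f q D l V H a ∨ TyR f q D l V H a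

/-- A section over the field of `H`, abstractly: an action `s` of `H` on a field `M ⊇ A` which extends the
action on `A`, with an element `x` of `M` fixed by `s` and not in `A`; the ratios `(x - e) / (x - e')`, for the
zeros `e, e'` of `f`, are `q`-th powers in `M`. -/
structure SecH (M : Type) [Field M] (H : Subgroup (A ≃ₐ[ℚ] A)) where
  s : H →* RingAut M
  ι : A →+* M
  hι : ∀ (σ : H) (a : A), s σ (ι a) = ι (σ.1 a)
  cont : ∀ z : M, ∃ E : IntermediateField ℚ A, FiniteDimensional ℚ E ∧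
    ∀ σ : H, σ.1 ∈ E.fixingSubgroup → s σ z = z
  x : M
  hx : ∀ σ, s σ x = x
  htr : ∀ a, ι a ≠ x
  hrt : ∀ e e' : Rt f A, ∃ α : M, α ^ q = (x - ι e.1) / (x - ι e'.1)

variable {f q A} {M : Type} [Field M] {H : Subgroup (A ≃ₐ[ℚ] A)}

/-- the section is unramified at `V` -/
def SecH.LocU (S : SecH f q A M H) (D : ℤ) (l : ℕ) (V : ValuationSubring A) : Prop :=
  (∀ (i j : Rt f A) (α : M), α ^ q = (S.x - S.ι i.1) / (S.x - S.ι j.1) →
    ∀ σ : H, Ine V σ.1 → S.s σ α = α) ∧ ((l : ℤ) ∣ D → q ∣ H.relIndex (InG V))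

/-- the section belongs to a branch point at `V` -/
def SecH.LocR (S : SecH f q A M H) (D : ℤ) (l : ℕ) (V : ValuationSubring A) : Prop :=
  (l : ℤ) ∣ D ∧ ∃ r : Rt f A, (∀ σ : H, Dec V σ.1 → σ.1 • r = r) ∧ ∃ g : Rt f A → Rt f A → M,
    ∀ i j, (S.x - S.ι i.1) / (S.x - S.ι j.1) = S.ι (Cf f D r i j) * g i j ^ q ∧
      ∀ σ : H, Dec V σ.1 → S.s σ (g i j) = g (σ.1 • i) (σ.1 • j)

/-- the local conditions at all primes not dividing `B` -/
def SecH.Good (S : SecH f q A M H) (D : ℤ) (B : ℕ) : Prop :=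
  ∀ (l : ℕ) (V : ValuationSubring A), At A B l V → S.LocU D l V ∨ S.LocR D l V

/-! ### Equivariant choices -/

/-- An equivariant choice function: it suffices that for every `x` there is a `y` fixed by the stabiliser of
`x`. -/
theorem eqv_choice {Δ X Y : Type*} [Group Δ] [Nonempty Y] (a : Δ → X → X) (a1 : ∀ x, a 1 x = x)
    (am : ∀ σ τ x, a (σ * τ) x = a σ (a τ x)) (b : Δ → Y → Y) (b1 : ∀ y, b 1 y = y)
    (bm : ∀ σ τ y, b (σ * τ) y = b σ (b τ y)) (S : Set X) (hS : ∀ σ, ∀ x ∈ S, a σ x ∈ S)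
    (Φ : X → Y → Prop) (hΦ : ∀ σ, ∀ x ∈ S, ∀ y, Φ x y → Φ (a σ x) (b σ y))
    (h : ∀ x ∈ S, ∃ y, Φ x y ∧ ∀ σ, a σ x = x → b σ y = y) :
    ∃ F : X → Y, (∀ σ, ∀ x ∈ S, F (a σ x) = b σ (F x)) ∧ ∀ x ∈ S, Φ x (F x) := by
  classical
  let st : Setoid X :=
    { r := fun x x' => ∃ σ, a σ x = x'
      iseqv :=
        { refl := fun x => ⟨1, a1 x⟩
          symm := by
            rintro x x' ⟨σ, rfl⟩
            exact ⟨σ⁻¹, by rw [← am, inv_mul_cancel, a1]⟩
          trans := by
            rintro x x' x'' ⟨σ, rfl⟩ ⟨τ, rfl⟩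
            exact ⟨τ * σ, am _ _ _⟩ } }
  let rep : X → X := fun x => (Quotient.mk st x).out
  have hrep : ∀ x, ∃ σ, a σ (rep x) = x := fun x => Quotient.exact (Quotient.out_eq (Quotient.mk st x))
  have hrepa : ∀ σ x, rep (a σ x) = rep x := by
    intro σ x
    have h1 : Quotient.mk st (a σ x) = Quotient.mk st x := Quotient.sound (Setoid.symm ⟨σ, rfl⟩)
    change (Quotient.mk st (a σ x)).out = _
    rw [h1]
  choose g hg using hrep
  have hrepS : ∀ x ∈ S, rep x ∈ S := by
    intro x hx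
    have h1 : a (g x)⁻¹ x = rep x := by
      have h2 := congrArg (a (g x)⁻¹) (hg x)
      rw [← am, inv_mul_cancel, a1] at h2
      exact h2.symm
    rw [← h1]
    exact hS _ _ hx
  have h' : ∀ x, ∃ y, x ∈ S → Φ x y ∧ ∀ σ, a σ x = x → b σ y = y := by
    intro x
    by_cases hx : x ∈ S
    · obtain ⟨y, hy⟩ := h x hx
      exact ⟨y, fun _ => hy⟩
    · exact ⟨Classical.arbitrary Y, fun hx' => absurd hx' hx⟩
  choose y hy using h'
  refine ⟨fun x => b (g x) (y (rep x)), ?_, ?_⟩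
  · intro σ x hx
    change b (g (a σ x)) (y (rep (a σ x))) = b σ (b (g x) (y (rep x)))
    rw [hrepa, ← bm]
    have h1 : a ((σ * g x)⁻¹ * g (a σ x)) (rep x) = rep x := by
      have h2 := hg (a σ x)
      rw [hrepa] at h2
      have e1 : a σ (a (g x) (rep x)) = a σ x := by rw [hg]
      rw [am, h2, ← e1, ← am σ, ← am, inv_mul_cancel, a1]
    have h2 := (hy (rep x) (hrepS x hx)).2 _ h1
    have h3 := congrArg (b (σ * g x)) h2
    rw [← bm, mul_inv_cancel_left] at h3
    exact h3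
  · intro x hx
    have h1 := hΦ (g x) _ (hrepS x hx) _ (hy (rep x) (hrepS x hx)).1
    rw [hg] at h1
    exact h1

end Pool.Agent.Q51.SZ
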